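import Pool.Agent.MP_f7db47_al.GS.VP
import Pool.Agent.MP_f7db47_al.GF.DF

/-!
From rational matrices to all fields of characteristic zero.
-/

namespace Pool.Agent.MP_f7db47_al.GS

open Function GF

universe v

variable {R : Type v} [Ring R]

theorem Lin_qu {G K L : Type} [Group G] [Group.FG G] [Field K] [CharZero K] [Field L]
    [CharZero L] {n : ℕ} (A : Subring K) (ev : A →+* L) (f₀ : G →* GL (Fin n) A)
    (ha : ∀ g, IsAlgebraic ℤ (f₀ g).val.trace) (hq : ∀ g, QU (ev.mapMatrix (f₀ g).val)) (g : G) :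
    QU (A.subtype.mapMatrix (f₀ g).val) := by
  have h0 := finite_traces ((Matrix.GeneralLinearGroup.map ev).comp f₀) hq
  have hfin : (Set.range fun g => (f₀ g).val.trace).Finite := by
    refine Set.Finite.of_finite_image (f := ev) (h0.subset ?_) ?_
    · rintro _ ⟨_, ⟨g, rfl⟩, rfl⟩
      exact ⟨g, (AddMonoidHom.map_trace ev _).symm⟩
    · rintro _ ⟨g, rfl⟩ _ ⟨g', rfl⟩ h1
      by_contra h2
      obtain ⟨r, h3, c, h4⟩ := ((ha g).sub (ha g')).exists_nonzero_dvd
        (mem_nonZeroDivisors_of_ne_zero (sub_ne_zero.2 h2))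
      have h5 := congrArg ev h4
      rw [map_mul, map_sub, sub_eq_zero.2 h1, zero_mul, eq_intCast, map_intCast] at h5
      exact h3 (Int.cast_eq_zero.1 h5)
  let F : G →* Matrix (Fin n) (Fin n) K :=
    A.subtype.mapMatrix.toMonoidHom.comp ((Units.coeHom _).comp f₀)
  obtain ⟨U, J, c, _, h1, -, h3⟩ := exists_unip F ((hfin.image A.subtype).subset (by
    rintro _ ⟨g, rfl⟩
    exact ⟨_, ⟨g, rfl⟩, AddMonoidHom.map_trace A.subtype _⟩))
  obtain ⟨m, hm, -, h4⟩ := U.exists_pow_mem_of_index_ne_zero Subgroup.FiniteIndex.index_ne_zero g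
  have h5 := h3 (List.replicate c (F (g ^ m) - 1)) List.length_replicate fun a h =>
    List.eq_of_mem_replicate h ▸ h1 _ h4
  rw [List.prod_replicate, map_pow] at h5
  exact ⟨m, hm, c, h5⟩

theorem Lin_res (L : Type) [Field L] [NumberField L] (n : ℕ) :
    ∃ (N : ℕ) (Ψ : Matrix (Fin n) (Fin n) L →+* Matrix (Fin N) (Fin N) ℚ), Injective Ψ := by
  let b := Module.finBasis ℚ L
  refine ⟨_, (Matrix.reindexRingEquiv ℚ finProdFinEquiv).toRingHom.comp
    ((Matrix.compRingEquiv _ _ ℚ).toRingHom.comp (Algebra.leftMulMatrix b).toRingHom.mapMatrix),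
    (Matrix.reindexRingEquiv ℚ finProdFinEquiv).injective.comp
      ((Matrix.compRingEquiv _ _ ℚ).injective.comp
        (Matrix.map_injective (Algebra.leftMulMatrix_injective b)))⟩

variable (R) in
/-- The fibred statement for rational matrices. -/
def StB : Prop := ∀ (G : Type) [Group G] (n : ℕ) (f : G →* GL (Fin n) ℚ),
  (∀ (H : Subgroup G) (φ : H →* Multiplicative ℤ), (∀ g : H, φ g = 1 → QU (f g).val) → QQ R H) →
    QQ R G

theorem qq_glQU (hB : StB R) {G K : Type} [Group G] [Field K] [CharZero K] {n : ℕ}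
    (f : G →* GL (Fin n) K) (h : ∀ (H : Subgroup G) (φ : H →* Multiplicative ℤ),
      (∀ g : H, φ g = 1 → QU (f g).val) → QQ R H) : QQ R G := by
  have h' : ∀ (M : Type) [Group M] (i : M →* G), Injective i → ∀ φ : M →* Multiplicative ℤ,
      (∀ g, φ g = 1 → QU (f (i g)).val) → QQ R M := fun M _ i hi φ hφ => by
    let e := MonoidHom.ofInjective hi
    refine (h i.range (φ.comp e.symm.toMonoidHom) fun g hg => ?_).sub e.toMonoidHom e.injective
    obtain ⟨x, rfl⟩ := e.surjective g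
    exact hφ x (by simpa using hg)
  refine GZ.qq_glnF f fun H hH => PT.qq_loc fun M hM => ?_
  let i : M →* G := H.subtype.comp M.subtype
  have hi : Injective i := H.subtype_injective.comp M.subtype_injective
  obtain ⟨A, f₀, hA, hf⟩ :=
    GN.exists_fg_subring ((Group.fg_iff_subgroup_fg M).2 hM) K n (f.comp i)
  obtain ⟨L, _, _, ⟨ev⟩⟩ := Uni1_ev A hA
  obtain ⟨N, Ψ, hΨ⟩ := Lin_res L n
  have e : ∀ g, (f (i g)).val = A.subtype.mapMatrix (f₀ g).val := fun g =>
    congrArg Units.val (hf g).symm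
  refine hB M N ((Units.map (Ψ.comp ev.mapMatrix).toMonoidHom).comp f₀) fun M₁ φ hφ => ?_
  let Q := Abelianization H ⧸ CommGroup.torsion (Abelianization H)
  let π : H →* Q := (QuotientGroup.mk' _).comp Abelianization.of
  refine PT.qq_abq' (Q := Multiplicative ℤ × Q)
    (fun q hq => by_contra fun e => isMulTorsionFree_iff_not_isOfFinOrder.1 inferInstance e hq)
    (φ.prod (π.comp (M.subtype.comp M₁.subtype))) fun M₂ ψ hψ => ?_
  refine h' M₂ (i.comp (M₁.subtype.comp M₂.subtype))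
    (hi.comp (M₁.subtype_injective.comp M₂.subtype_injective)) ψ fun x hx => ?_
  have h0 := Prod.ext_iff.1 (hψ x hx)
  have h1 : IsOfFinOrder (Abelianization.of (x.1.1 : H)) := (QuotientGroup.eq_one_iff _).1 h0.2
  obtain ⟨k, hk, h2⟩ := isOfFinOrder_iff_pow_eq_one.1 h1
  have h3 : i (x.1.1 ^ k) ∈ ⁅H, H⁆ := by
    rw [← H.map_subtype_commutator]
    refine ⟨(x.1.1 : H) ^ k, ?_, rfl⟩
    rw [← Abelianization.ker_of]
    exact (map_pow _ _ _).trans h2
  obtain ⟨m, hm, h4⟩ := Lin_qu A ev (f₀.comp (M₁.subtype.comp (zpowersHom M₁ (x.1 ^ k))))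
    (fun j => by
      have h5 := hH _ (Subgroup.zpow_mem _ h3 j.toAdd)
      rw [← map_zpow, e, RingHom.mapMatrix_apply, ← AddMonoidHom.map_trace] at h5
      exact (isAlgebraic_algHom_iff A.subtype.toIntAlgHom A.subtype_injective).1 h5)
    (fun j => by
      obtain ⟨m, hm, h5⟩ := hφ ((x.1 ^ k) ^ j.toAdd) (by
        rw [map_zpow, map_pow, show φ x.1 = 1 from h0.1, one_pow, one_zpow])
      refine ⟨m, hm, (IsNilpotent.map_iff hΨ).1 ?_⟩
      rw [map_sub, map_pow, map_one]
      exact h5) (Multiplicative.ofAdd 1)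
  refine ⟨k * m, Nat.mul_pos hk hm, ?_⟩
  change IsNilpotent ((f (i x.1.1)).val ^ (k * m) - 1)
  rw [pow_mul, ← Units.val_pow_eq_pow_val, ← map_pow, ← map_pow, e]
  simpa using h4

theorem qq_lin0 (hR : RegularRing R) (hB : StB R) {G K : Type} [Group G] [Field K] [CharZero K]
    {n : ℕ} (f : G →* GL (Fin n) K) (hf : Injective f) (hT : ∀ g : G, IsOfFinOrder g → g = 1) :
    QQ R G :=
  qq_glQU hB f fun H φ h => qq_quasi hR (f.comp H.subtype) (hf.comp H.subtype_injective)
    (TF.sub hT _ H.subtype_injective) φ h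

end Pool.Agent.MP_f7db47_al.GS
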