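import Mathlib

/-!
Compound matrices.
-/

namespace Pool.Agent.MP_f7db47_al.GS

/-- The `k`-th compound matrix, as a monoid homomorphism. -/
noncomputable def Cmp_hom (K : Type) [Field K] (n k : ℕ) :
    Matrix (Fin n) (Fin n) K →*
      Matrix (Set.powersetCard (Fin n) k) (Set.powersetCard (Fin n) k) K where
  toFun M := LinearMap.toMatrix ((Pi.basisFun K (Fin n)).exteriorPower k)
    ((Pi.basisFun K (Fin n)).exteriorPower k) (exteriorPower.map k (Matrix.toLin' M))
  map_one' := by
    rw [Matrix.toLin'_one, exteriorPower.map_id, LinearMap.toMatrix_id]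
  map_mul' M N := by
    rw [Matrix.toLin'_mul, exteriorPower.map_comp,
      LinearMap.toMatrix_comp _ ((Pi.basisFun K (Fin n)).exteriorPower k)]

theorem Cmp_diag (K : Type) [Field K] (n k : ℕ) (M : Matrix (Fin n) (Fin n) K)
    (s : Set.powersetCard (Fin n) k) :
    Cmp_hom K n k M s s =
      (M.submatrix (Subtype.val : s.val → Fin n) (Subtype.val : s.val → Fin n)).det := by
  change LinearMap.toMatrix ((Pi.basisFun K (Fin n)).exteriorPower k)
    ((Pi.basisFun K (Fin n)).exteriorPower k) (exteriorPower.map k (Matrix.toLin' M)) s s = _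
  rw [LinearMap.toMatrix_apply, exteriorPower.basis_repr_apply, exteriorPower.basis_apply,
    exteriorPower.map_apply_ιMulti_family, exteriorPower.ιMulti_family,
    exteriorPower.ιMultiDual_apply_ιMulti, ← Matrix.det_transpose,
    ← Matrix.det_submatrix_equiv_self (s.val.orderIsoOfFin s.prop).toEquiv
      (M.submatrix (Subtype.val : s.val → Fin n) (Subtype.val : s.val → Fin n))]
  congr 1
  ext i j
  simp [Set.powersetCard.ofFinEmbEquiv_symm_apply]

theorem Cmp_trace (K : Type) [Field K] (n k : ℕ) (M : Matrix (Fin n) (Fin n) K) :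
    (Cmp_hom K n k M).trace = ∑ s ∈ (Finset.univ : Finset (Fin n)).powersetCard k,
      (M.submatrix (Subtype.val : s → Fin n) (Subtype.val : s → Fin n)).det := by
  rw [Matrix.trace]
  simp only [Matrix.diag_apply, Cmp_diag]
  symm
  apply Finset.sum_subtype
  intro s
  simp [Finset.mem_powersetCard]

theorem exists_compound (K : Type) [Field K] (n i : ℕ) :
    ∃ (κ : Type) (_ : Fintype κ) (_ : DecidableEq κ)
      (Λ : Matrix (Fin n) (Fin n) K →* Matrix κ κ K),
      ∀ M, (Λ M).trace = M.charpoly.coeff i ∨ (Λ M).trace = -M.charpoly.coeff i := by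
  by_cases hi : n < i
  · refine ⟨Empty, inferInstance, inferInstance, 1, fun M => Or.inl ?_⟩
    rw [Polynomial.coeff_eq_zero_of_natDegree_lt]
    · simp [Matrix.trace]
    · rw [Matrix.charpoly_natDegree_eq_dim, Fintype.card_fin]; exact hi
  · have hi' : i ≤ n := not_lt.mp hi
    refine ⟨Set.powersetCard (Fin n) (n - i), inferInstance, inferInstance,
      Cmp_hom K n (n - i), fun M => ?_⟩
    have h := Matrix.charpoly_coeff_eq_sum_minors M (n - i) (by simp)
    rw [Fintype.card_fin, Nat.sub_sub_self hi', ← Cmp_trace] at h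
    rcases neg_one_pow_eq_or K (n - i) with h1 | h1
    · left; rw [h, h1, one_mul]
    · right; rw [h, h1]; ring

end Pool.Agent.MP_f7db47_al.GS
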