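import Pool.Agent.MP_f7db47_al.GZ.Span

/-!
Groups of unipotent matrices in any characteristic.
-/

namespace Pool.Agent.MP_f7db47_al.GS

theorem Kol_simple {G K ι : Type} [Group G] [Field K] [Fintype ι] [DecidableEq ι]
    (φ : G →* Matrix ι ι K) (h : ∀ g, IsNilpotent (φ g - 1))
    (hs : ∀ y, y ∈ Submodule.span K (Set.range φ)) (g : G) : φ g = 1 := by
  have h1 : ∀ k, (φ k).trace = (1 : Matrix ι ι K).trace := fun k => by
    rw [← sub_eq_zero, ← Matrix.trace_sub]
    exact (Matrix.isNilpotent_trace_of_isNilpotent (h k)).eq_zero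
  rw [Matrix.ext_iff_trace_mul_right]
  intro y
  induction hs y using Submodule.span_induction with
  | zero => simp
  | add x y _ _ hx hy => rw [mul_add, mul_add, Matrix.trace_add, Matrix.trace_add, hx, hy]
  | smul c x _ hx => rw [mul_smul_comm, mul_smul_comm, Matrix.trace_smul, Matrix.trace_smul, hx]
  | mem x hx =>
    obtain ⟨k, rfl⟩ := hx
    rw [← map_mul, one_mul, h1, h1]

theorem Kol_jac {G K A : Type} [Group G] [Field K] [IsAlgClosed K] [Ring A] [Algebra K A]
    [Module.Finite K A] (φ : G →* A) (h : ∀ g, IsNilpotent (φ g - 1))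
    (hs : ∀ y, y ∈ Submodule.span K (Set.range φ)) (g : G) : φ g - 1 ∈ Ring.jacobson A := by
  have := IsArtinianRing.of_finite K A
  have : Module.Finite K (A ⧸ Ring.jacobson A) :=
    .of_surjective (Ideal.Quotient.mkₐ K (Ring.jacobson A)).toLinearMap Ideal.Quotient.mk_surjective
  obtain ⟨m, d, -, ⟨e⟩⟩ :=
    IsSemisimpleRing.exists_algEquiv_pi_matrix_of_isAlgClosed K (A ⧸ Ring.jacobson A)
  rw [← Ideal.Quotient.eq_zero_iff_mem, map_sub, map_one, sub_eq_zero]
  refine e.injective ((funext fun i => ?_).trans (map_one e).symm)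
  let π : A →ₐ[K] Matrix (Fin (d i)) (Fin (d i)) K :=
    (Pi.evalAlgHom K _ i).comp (e.toAlgHom.comp (Ideal.Quotient.mkₐ K (Ring.jacobson A)))
  have hπ : Function.Surjective π :=
    (Function.surjective_eval i).comp (e.surjective.comp Ideal.Quotient.mk_surjective)
  refine Kol_simple (π.toMonoidHom.comp φ) (fun k => ?_) (fun y => ?_) g
  · simpa using (h k).map π
  · obtain ⟨a, rfl⟩ := hπ y
    have h1 := Submodule.apply_mem_span_image_of_mem_span π.toLinearMap (hs a)
    rwa [← Set.range_comp] at h1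

theorem Kol_closed {G K : Type} [Group G] [Field K] [IsAlgClosed K] {n : ℕ}
    (f : G →* Matrix (Fin n) (Fin n) K) (h : ∀ g, IsNilpotent (f g - 1)) :
    ∃ (J : AddSubgroup (Matrix (Fin n) (Fin n) K)) (c : ℕ), (∀ g, f g - 1 ∈ J) ∧
      (∀ a ∈ J, ∀ b ∈ J, a * b ∈ J) ∧
      ∀ l : List (Matrix (Fin n) (Fin n) K), l.length = c → (∀ a ∈ l, a ∈ J) → l.prod = 0 := by
  have hf : ∀ g, f g ∈ GZ.spn f ⊤ := fun g => GZ.mem_spn f trivial
  let A : Subalgebra K (Matrix (Fin n) (Fin n) K) :=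
    (GZ.spn f ⊤).toSubalgebra (map_one f ▸ hf 1) fun _ _ => GZ.spn_mul f
  let φ : G →* A := f.codRestrict A hf
  have := IsArtinianRing.of_finite K A
  obtain ⟨c, hc⟩ := IsSemiprimaryRing.isNilpotent (R := A)
  have hj := Kol_jac (K := K) φ (fun g => (h g).imp fun k hk => Subtype.ext hk) fun y => by
    obtain ⟨y, hy⟩ := y
    induction hy using Submodule.span_induction with
    | zero => exact zero_mem _
    | add x y _ _ hx hy => exact add_mem hx hy
    | smul c x _ hx => exact Submodule.smul_mem _ c hx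
    | mem x hx =>
      obtain ⟨k, -, rfl⟩ := hx
      exact Submodule.subset_span ⟨k, rfl⟩
  refine ⟨(Ring.jacobson A).toAddSubgroup.map A.val.toAddMonoidHom, c, fun g => ⟨_, hj g, rfl⟩, ?_,
    fun l hlc hJ => ?_⟩
  · rintro _ ⟨a, -, rfl⟩ _ ⟨b, hb, rfl⟩
    exact ⟨a * b, Ideal.mul_mem_left _ a hb, rfl⟩
  · have key : ∃ b ∈ Ring.jacobson A ^ l.length, b.1 = l.prod := by
      clear hlc
      induction l with
      | nil => exact ⟨1, by simp [Submodule.pow_zero], rfl⟩
      | cons a l ih =>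
        obtain ⟨b, h1, h2⟩ := ih fun x hx => hJ x (List.mem_cons_of_mem _ hx)
        obtain ⟨a, h3, rfl⟩ := hJ a List.mem_cons_self
        refine ⟨a * b, ?_, by rw [List.prod_cons, ← h2]; rfl⟩
        rw [List.length_cons, Ideal.IsTwoSided.pow_succ]
        exact Ideal.mul_mem_mul h3 h1
    obtain ⟨b, h1, h2⟩ := key
    rw [hlc, hc] at h1
    rw [← h2, Ideal.mem_bot.1 h1]
    rfl

theorem kolchin {G K : Type} [Group G] [Field K] {n : ℕ} (f : G →* Matrix (Fin n) (Fin n) K)
    (h : ∀ g, IsNilpotent (f g - 1)) :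
    ∃ (J : AddSubgroup (Matrix (Fin n) (Fin n) K)) (c : ℕ), (∀ g, f g - 1 ∈ J) ∧
      (∀ a ∈ J, ∀ b ∈ J, a * b ∈ J) ∧
      ∀ l : List (Matrix (Fin n) (Fin n) K), l.length = c → (∀ a ∈ l, a ∈ J) → l.prod = 0 :=
  by
  let ψ : Matrix (Fin n) (Fin n) K →+* Matrix (Fin n) (Fin n) (AlgebraicClosure K) :=
    (algebraMap K (AlgebraicClosure K)).mapMatrix
  have hψ : Function.Injective ψ := Matrix.map_injective (algebraMap K _).injective
  obtain ⟨J, c, h1, h2, h3⟩ := Kol_closed (ψ.toMonoidHom.comp f) fun g => by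
    simpa using (h g).map ψ
  refine ⟨J.comap ψ.toAddMonoidHom, c, fun g => ?_, fun a ha b hb => ?_, fun l hl hJ => hψ ?_⟩
  · change ψ (f g - 1) ∈ J
    rw [map_sub, map_one]
    exact h1 g
  · change ψ (a * b) ∈ J
    rw [map_mul]
    exact h2 _ ha _ hb
  · rw [map_list_prod, map_zero]
    refine h3 _ (by rw [List.length_map, hl]) fun a ha => ?_
    obtain ⟨b, hb, rfl⟩ := List.mem_map.1 ha
    exact hJ b hb

end Pool.Agent.MP_f7db47_al.GS
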