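import Pool.Agent.MP_f7db47_al.PT.Ab

/-!
Finitely generated unipotent groups are poly-infinite-cyclic.
-/

namespace Pool.Agent.MP_f7db47_al.GS

theorem Uni3_lat {U K A : Type} [Group U] [Group.FG U] [Field K] [Ring A] [Algebra K A]
    (f : U →* A) (J : Submodule K A) (c : ℕ) (h1 : ∀ g, f g - 1 ∈ J) (hc : J ^ c = ⊥) :
    ∃ Λ : Submodule ℤ A, Λ.FG ∧ ∀ g, f g - 1 ∈ Λ := by
  obtain ⟨S, hS, hfin⟩ := Group.fg_iff.1 ‹Group.FG U›
  let N : Submodule ℤ A := Submodule.span ℤ ((fun g => f g - 1) '' (S ∪ S⁻¹))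
  have hN : N.FG := Submodule.fg_span ((hfin.union hfin.inv).image _)
  have hNJ : ∀ k, N ^ k ≤ (J ^ k).restrictScalars ℤ := fun k => by
    induction k with
    | zero =>
      rw [pow_zero, pow_zero, Submodule.one_le]
      exact (Submodule.one_le (P := (1 : Submodule K A))).1 le_rfl
    | succ k ih =>
      rw [pow_succ, pow_succ, Submodule.mul_le]
      intro x hx y hy
      have hx' : x ∈ J ^ k := ih hx
      have hy' : y ∈ J := by
        refine (Submodule.span_le (p := J.restrictScalars ℤ)).2 ?_ hy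
        rintro _ ⟨g, -, rfl⟩
        exact h1 g
      rw [Submodule.restrictScalars_mem]
      exact Submodule.mul_mem_mul hx' hy'
  have hle : ∀ k, N ^ k ≤ ⨆ i : Fin c, N ^ (i : ℕ) := fun k => by
    rcases lt_or_ge k c with h | h
    · exact le_iSup (fun i : Fin c => N ^ (i : ℕ)) ⟨k, h⟩
    · obtain ⟨j, rfl⟩ := Nat.exists_eq_add_of_le h
      intro x hx
      have h2 : x ∈ J ^ (c + j) := hNJ _ hx
      rw [pow_add, hc, Submodule.bot_mul, Submodule.mem_bot] at h2
      rw [h2]
      exact zero_mem _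
  refine ⟨⨆ i : Fin c, N ^ (i : ℕ), Submodule.fg_iSup _ fun i => hN.pow _, fun g => ?_⟩
  set Λ := ⨆ i : Fin c, N ^ (i : ℕ) with hΛ
  have hNΛ : N * Λ ≤ Λ := by
    conv_lhs => rw [hΛ, Submodule.mul_iSup]
    exact iSup_le fun i => by
      rw [← pow_succ']
      exact hle _
  have hs : ∀ s ∈ S ∪ S⁻¹, ∀ x ∈ Λ, f s * x ∈ Λ := fun s hs x hx => by
    rw [← sub_add_cancel (f s) 1, add_mul, one_mul]
    exact add_mem (hNΛ (Submodule.mul_mem_mul (Submodule.subset_span ⟨s, hs, rfl⟩) hx)) hx
  have h2 : ∀ x ∈ Λ, f g * x ∈ Λ := by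
    have hg : g ∈ Subgroup.closure S := hS ▸ Subgroup.mem_top g
    induction hg using Subgroup.closure_induction'' with
    | mem s h => exact hs s (Or.inl h)
    | inv_mem s h => exact hs s⁻¹ (Or.inr (Set.inv_mem_inv.2 h))
    | one => simp
    | mul a b _ _ ha hb =>
      intro x hx
      rw [map_mul, mul_assoc]
      exact ha _ (hb x hx)
  have h3 : (1 : A) ∈ Λ := hle 0 (by
    rw [pow_zero]
    exact Submodule.one_le.1 le_rfl)
  exact sub_mem (by simpa using h2 1 h3) h3

theorem polyZ_ext {P : Type} [Group P] (hP : PolyZ P) : ∀ (G : Type) [Group G] (φ : G →* P),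
    PolyZ φ.ker → PolyZ G := by
  induction hP with
  | triv P h =>
    intro G _ φ hk
    exact polyZ_of_injective hk G ((MonoidHom.id G).codRestrict φ.ker fun g =>
      Subsingleton.elim _ _) fun x y hxy => congrArg Subtype.val hxy
  | ext P h _ ih =>
    intro G _ φ hk
    refine PolyZ.ext G (h.comp φ) (ih _ ((φ.comp (h.comp φ).ker.subtype).codRestrict h.ker
      fun x => x.2) (polyZ_of_injective hk _ (((Subgroup.subtype _).comp
        (Subgroup.subtype _)).codRestrict φ.ker fun x => congrArg Subtype.val x.2) ?_))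
    intro x y hxy
    have e := congrArg Subtype.val hxy
    exact Subtype.ext (Subtype.ext e)

theorem PolyZ_tf {P : Type} [Group P] (hP : PolyZ P) (g : P) (hg : IsOfFinOrder g) : g = 1 := by
  induction hP with
  | triv P h => exact Subsingleton.elim _ _
  | ext P h _ ih =>
    have h1 : h g = 1 := (h.isOfFinOrder hg).eq_one'
    exact congrArg Subtype.val (ih ⟨g, h1⟩
      ((h.ker.subtype_injective.isOfFinOrder_iff (f := h.ker.subtype)).1 hg))

theorem polyZ_of_unip {U K : Type} [Group U] [Group.FG U] [Field K] [CharZero K] {n : ℕ}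
    (f : U →* Matrix (Fin n) (Fin n) K) (hf : Function.Injective f)
    (J : Submodule K (Matrix (Fin n) (Fin n) K)) (c : ℕ) (h1 : ∀ g, f g - 1 ∈ J)
    (h2 : ∀ a ∈ J, ∀ b ∈ J, a * b ∈ J)
    (h3 : ∀ l : List (Matrix (Fin n) (Fin n) K), l.length = c → (∀ a ∈ l, a ∈ J) → l.prod = 0) :
    PolyZ U := by
  classical
  have hJ : ∀ i, J ^ (i + 2) ≤ J ^ (i + 1) := fun i => by
    rw [pow_succ J (i + 1), pow_succ J i, mul_assoc]
    exact mul_le_mul_right (Submodule.mul_le.2 h2) _
  have hc : J ^ c = ⊥ := by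
    rw [Submodule.pow_eq_span_pow_set, Submodule.span_eq_bot]
    intro x hx
    obtain ⟨l, rfl⟩ := Set.mem_pow.1 hx
    refine h3 _ List.length_ofFn fun a ha => ?_
    obtain ⟨i, rfl⟩ := List.mem_ofFn.1 ha
    exact (l i).2
  obtain ⟨Λ, hΛ, hm⟩ := Uni3_lat f J c h1 hc
  have hmul : ∀ i (a b : U), f b - 1 ∈ J ^ (i + 1) → (f a - 1) * (f b - 1) ∈ J ^ (i + 2) :=
    fun i a b hb => by
      rw [pow_succ' J (i + 1)]
      exact Submodule.mul_mem_mul (h1 a) hb
  have hid : ∀ a b : U, f (a * b) - 1 = (f a - 1) * (f b - 1) + ((f a - 1) + (f b - 1)) :=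
    fun a b => by
      rw [map_mul]
      noncomm_ring
  let V : ℕ → Subgroup U := fun i =>
    { carrier := {g | f g - 1 ∈ J ^ (i + 1)}
      one_mem' := by simp
      mul_mem' := fun {a b} ha hb => by
        rw [Set.mem_ofPred_eq, hid]
        exact add_mem (hJ i (hmul i a b hb)) (add_mem ha hb)
      inv_mem' := fun {a} ha => by
        have e := hid a⁻¹ a
        rw [inv_mul_cancel, map_one, sub_self, ← add_assoc, add_right_comm, eq_comm,
          add_eq_zero_iff_neg_eq] at e
        rw [Set.mem_ofPred_eq, ← e]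
        exact neg_mem (add_mem (hJ i (hmul i _ a ha)) ha) }
  have key : ∀ k i, i + k = c → PolyZ (V i) := by
    intro k
    induction k with
    | zero =>
      intro i hi
      obtain rfl : i = c := hi
      have h0 : ∀ x : V i, x = 1 := fun x => by
        have hx : f x - 1 ∈ J ^ (i + 1) := x.2
        rw [pow_succ, hc, Submodule.bot_mul, Submodule.mem_bot, sub_eq_zero, ← map_one f] at hx
        exact Subtype.ext (hf hx)
      exact PolyZ.triv _ ⟨fun x y => (h0 x).trans (h0 y).symm⟩
    | succ k ih =>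
      intro i hi
      let T := Λ.map ((J ^ (i + 2)).mkQ.restrictScalars ℤ)
      have hT : Module.Finite ℤ T := Module.Finite.iff_fg.2 (hΛ.map _)
      have hT' : AddGroup.FG T := Module.Finite.iff_addGroup_fg.1 hT
      let φ : V i →* Multiplicative T := MonoidHom.mk'
        (fun g => Multiplicative.ofAdd ⟨(J ^ (i + 2)).mkQ (f g - 1), _, hm g, rfl⟩) fun a b => by
          rw [← ofAdd_add]
          refine congrArg Multiplicative.ofAdd (Subtype.ext ?_)
          change (J ^ (i + 2)).mkQ (f (a * b) - 1) =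
            (J ^ (i + 2)).mkQ (f a - 1) + (J ^ (i + 2)).mkQ (f b - 1)
          rw [hid, map_add, map_add, Submodule.mkQ_apply,
            (Submodule.Quotient.mk_eq_zero _).2 (hmul i a b b.2), zero_add]
      refine polyZ_ext (PT.Ab_poly (K := Multiplicative T) mul_comm fun g hg => ?_) _ φ
        (polyZ_of_injective (ih (i + 1) (by omega)) _ (((Subgroup.subtype _).comp
          (Subgroup.subtype _)).codRestrict (V (i + 1)) fun x => ?_) fun x y hxy => ?_)
      · obtain ⟨m, hm0, e⟩ := isOfFinOrder_iff_pow_eq_one.1 hg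
        have e1 : (m : K) • (g.toAdd : _ ⧸ J ^ (i + 2)) = 0 := by
          rw [Nat.cast_smul_eq_nsmul]
          exact congrArg (fun x : Multiplicative T => (x.toAdd : _ ⧸ J ^ (i + 2))) e
        exact Multiplicative.toAdd.injective (Subtype.ext
          ((smul_eq_zero.1 e1).resolve_left (Nat.cast_ne_zero.2 hm0.ne')))
      · exact (Submodule.Quotient.mk_eq_zero _).1
          (congrArg (fun x : Multiplicative T => (x.toAdd : _ ⧸ J ^ (i + 2))) x.2)
      · have e := congrArg Subtype.val hxy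
        exact Subtype.ext (Subtype.ext e)
  exact polyZ_of_injective (key c 0 (zero_add c)) U ((MonoidHom.id U).codRestrict (V 0) fun g => by
    change f g - 1 ∈ J ^ (0 + 1)
    rw [zero_add, pow_one]
    exact h1 g) fun x y hxy => congrArg Subtype.val hxy

end Pool.Agent.MP_f7db47_al.GS
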