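import Pool.Agent.MP_f7db47_al.GS.DS
import Pool.Agent.MP_f7db47_al.GS.Uni3

/-!
Finitely generated subgroups of the adjoint group of a nilpotent ring.
-/

namespace Pool.Agent.MP_f7db47_al.GS

section

variable {U S : Type} [Group U] [Ring S]

theorem NilV_id (f : U →* S) (a b : U) :
    f (a * b) - 1 = (f a - 1) * (f b - 1) + ((f a - 1) + (f b - 1)) := by
  rw [map_mul]
  noncomm_ring

/-- The elements congruent to one modulo `W`. -/
def NilV_sub (f : U →* S) (W : Submodule ℤ S) (h : ∀ g, ∀ x ∈ W, (f g - 1) * x ∈ W) :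
    Subgroup U where
  carrier := {g | f g - 1 ∈ W}
  one_mem' := by simp
  mul_mem' := fun {a b} ha hb => by
    rw [Set.mem_ofPred_eq, NilV_id]
    exact add_mem (h a _ hb) (add_mem ha hb)
  inv_mem' := fun {a} ha => by
    have e := NilV_id f a⁻¹ a
    rw [inv_mul_cancel, map_one, sub_self, ← add_assoc, add_right_comm, eq_comm,
      add_eq_zero_iff_neg_eq] at e
    rw [Set.mem_ofPred_eq, ← e]
    exact neg_mem (add_mem (h _ _ ha) ha)

/-- The saturation of a subgroup. -/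
def NilV_sat (N : Submodule ℤ S) : Submodule ℤ S where
  carrier := {x | ∃ m : ℤ, m ≠ 0 ∧ m • x ∈ N}
  add_mem' := by
    rintro a b ⟨m, hm, ha⟩ ⟨n, hn, hb⟩
    refine ⟨m * n, mul_ne_zero hm hn, ?_⟩
    rw [smul_add, mul_smul, mul_smul, smul_comm]
    exact add_mem (N.smul_mem n ha) (N.smul_mem m hb)
  zero_mem' := ⟨1, one_ne_zero, by simp⟩
  smul_mem' := by
    rintro c x ⟨m, hm, hx⟩
    refine ⟨m, hm, ?_⟩
    rw [smul_comm]
    exact N.smul_mem c hx

theorem NilV_poly (f : U →* S) (Λ : Submodule ℤ S) (hΛ : Λ.FG) (hm : ∀ g, f g - 1 ∈ Λ)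
    (W : ℕ → Submodule ℤ S) (c : ℕ) (hmul : ∀ i g, ∀ x ∈ W i, (f g - 1) * x ∈ W (i + 1))
    (hJ : ∀ i, W (i + 1) ≤ W i) (hs : ∀ i (m : ℤ) x, m ≠ 0 → m • x ∈ W i → x ∈ W i)
    (h0 : ∀ g, f g - 1 ∈ W 0) (hc : ∀ g, f g - 1 ∈ W c → g = 1) : PolyZ U := by
  let V : ℕ → Subgroup U := fun i => NilV_sub f (W i) fun g x hx => hJ i (hmul i g x hx)
  have key : ∀ k i, i + k = c → PolyZ (V i) := by
    intro k
    induction k with
    | zero =>
      intro i hi
      obtain rfl : i = c := hi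
      exact PolyZ.triv _ ⟨fun x y => Subtype.ext ((hc x x.2).trans (hc y y.2).symm)⟩
    | succ k ih =>
      intro i hi
      let T := Λ.map (W (i + 1)).mkQ
      have hT : Module.Finite ℤ T := Module.Finite.iff_fg.2 (hΛ.map _)
      have hT' : AddGroup.FG T := Module.Finite.iff_addGroup_fg.1 hT
      let φ : V i →* Multiplicative T := MonoidHom.mk'
        (fun g => Multiplicative.ofAdd ⟨(W (i + 1)).mkQ (f g - 1), _, hm g, rfl⟩) fun a b => by
          rw [← ofAdd_add]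
          refine congrArg Multiplicative.ofAdd (Subtype.ext ?_)
          change (W (i + 1)).mkQ (f (a * b) - 1) =
            (W (i + 1)).mkQ (f a - 1) + (W (i + 1)).mkQ (f b - 1)
          rw [NilV_id, map_add, map_add, Submodule.mkQ_apply,
            (Submodule.Quotient.mk_eq_zero _).2 (hmul i a _ b.2), zero_add]
      refine polyZ_ext (PT.Ab_poly (K := Multiplicative T) mul_comm fun g hg => ?_) _ φ
        (polyZ_of_injective (ih (i + 1) (by omega)) _ (((Subgroup.subtype _).comp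
          (Subgroup.subtype _)).codRestrict (V (i + 1)) fun x => ?_) fun x y hxy => ?_)
      · obtain ⟨m, hm0, e⟩ := isOfFinOrder_iff_pow_eq_one.1 hg
        obtain ⟨x, -, hx⟩ := g.toAdd.2
        have e1 : (m : ℤ) • (g.toAdd : _ ⧸ W (i + 1)) = 0 := by
          rw [natCast_zsmul]
          exact congrArg (fun x : Multiplicative T => (x.toAdd : _ ⧸ W (i + 1))) e
        rw [← hx, ← map_smul, Submodule.mkQ_apply, Submodule.Quotient.mk_eq_zero] at e1
        exact Multiplicative.toAdd.injective (Subtype.ext (hx.symm.trans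
          ((Submodule.Quotient.mk_eq_zero _).2 (hs _ m x (Nat.cast_ne_zero.2 hm0.ne') e1))))
      · exact (Submodule.Quotient.mk_eq_zero _).1
          (congrArg (fun x : Multiplicative T => (x.toAdd : _ ⧸ W (i + 1))) x.2)
      · have e := congrArg Subtype.val hxy
        exact Subtype.ext (Subtype.ext e)
  exact polyZ_of_injective (key c 0 (zero_add c)) U ((MonoidHom.id U).codRestrict (V 0) h0)
    fun x y hxy => congrArg Subtype.val hxy

theorem NilV_lat [Group.FG U] (f : U →* S) (J : Submodule ℤ S) (c : ℕ) (h1 : ∀ g, f g - 1 ∈ J)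
    (h2 : J * J ≤ J) (hc : J ^ c = ⊥) :
    ∃ Λ : Submodule ℤ S, Λ.FG ∧ Λ ≤ J ∧ Λ * Λ ≤ Λ ∧ ∀ g, f g - 1 ∈ Λ := by
  obtain ⟨E, hE, hfin⟩ := Group.fg_iff.1 ‹Group.FG U›
  let N : Submodule ℤ S := Submodule.span ℤ ((fun g => f g - 1) '' (E ∪ E⁻¹))
  have hN : N.FG := Submodule.fg_span ((hfin.union hfin.inv).image _)
  have hNJ : N ≤ J := Submodule.span_le.2 (by
    rintro _ ⟨g, -, rfl⟩
    exact h1 g)
  have hp : ∀ k, N ^ (k + 1) ≤ J := fun k => by
    induction k with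
    | zero => rwa [zero_add, pow_one]
    | succ k ih =>
      rw [pow_succ]
      exact (mul_le_mul' ih hNJ).trans h2
  have hle : ∀ k, N ^ (k + 1) ≤ ⨆ i : Fin (c + 1), N ^ ((i : ℕ) + 1) := fun k => by
    rcases lt_or_ge k (c + 1) with h | h
    · exact le_iSup (fun i : Fin (c + 1) => N ^ ((i : ℕ) + 1)) ⟨k, h⟩
    · obtain ⟨j, hj⟩ := Nat.exists_eq_add_of_le (show c ≤ k + 1 by omega)
      refine (pow_le_pow_left' hNJ _).trans ?_
      rw [hj, pow_add, hc, Submodule.bot_mul]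
      exact bot_le
  have hmul : (⨆ i : Fin (c + 1), N ^ ((i : ℕ) + 1)) * (⨆ i : Fin (c + 1), N ^ ((i : ℕ) + 1)) ≤
      ⨆ i : Fin (c + 1), N ^ ((i : ℕ) + 1) := by
    conv_lhs => rw [Submodule.iSup_mul]
    refine iSup_le fun i => ?_
    conv_lhs => rw [Submodule.mul_iSup]
    refine iSup_le fun j => ?_
    rw [← pow_add, ← add_assoc]
    exact hle _
  refine ⟨⨆ i : Fin (c + 1), N ^ ((i : ℕ) + 1), Submodule.fg_iSup _ fun i => hN.pow _,
    iSup_le fun i => hp i, hmul, fun g => ?_⟩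
  have h3 := hle 0
  rw [zero_add, pow_one] at h3
  have hg : g ∈ Subgroup.closure E := hE ▸ Subgroup.mem_top g
  induction hg using Subgroup.closure_induction'' with
  | mem s h => exact h3 (Submodule.subset_span ⟨s, Or.inl h, rfl⟩)
  | inv_mem s h => exact h3 (Submodule.subset_span ⟨s⁻¹, Or.inr (Set.inv_mem_inv.2 h), rfl⟩)
  | one => simp
  | mul a b _ _ ha hb =>
    rw [NilV_id]
    exact add_mem (hmul (Submodule.mul_mem_mul ha hb)) (add_mem ha hb)

theorem NilV_exp (Λ : Submodule ℤ S) (hΛ : Λ.FG) :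
    ∃ e : ℤ, e ≠ 0 ∧ ∀ y ∈ Λ, ∀ m : ℤ, m ≠ 0 → m • y = 0 → e • y = 0 := by
  have : Module.Finite ℤ Λ := Module.Finite.iff_fg.2 hΛ
  obtain ⟨e, h1, h2⟩ := Submodule.annihilator_top_inter_nonZeroDivisors
    (Submodule.torsion_isTorsion (R := ℤ) (M := Λ))
  refine ⟨e, nonZeroDivisors.ne_zero h2, fun y hy m hm h => ?_⟩
  exact congrArg (fun x : Submodule.torsion ℤ Λ => (x.1 : S))
    (Submodule.mem_annihilator.1 h1 ⟨⟨y, hy⟩, ⟨m, mem_nonZeroDivisors_of_ne_zero hm⟩,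
      Subtype.ext h⟩ Submodule.mem_top)

end

theorem vp_of_nil {U S : Type} [Group U] [Group.FG U] [Ring S] (f : U →* S)
    (hf : Function.Injective f) (J : AddSubgroup S) (c : ℕ) (h1 : ∀ g, f g - 1 ∈ J)
    (h2 : ∀ a ∈ J, ∀ b ∈ J, a * b ∈ J)
    (h3 : ∀ l : List S, l.length = c → (∀ a ∈ l, a ∈ J) → l.prod = 0) : VP U :=
  by
  have hc : J.toIntSubmodule ^ c = ⊥ := by
    rw [Submodule.pow_eq_span_pow_set, Submodule.span_eq_bot]
    intro x hx
    obtain ⟨l, rfl⟩ := Set.mem_pow.1 hx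
    refine h3 _ List.length_ofFn fun a ha => ?_
    obtain ⟨i, rfl⟩ := List.mem_ofFn.1 ha
    exact (l i).2
  obtain ⟨Λ, hΛ, hJ, hmul, hm⟩ := NilV_lat f J.toIntSubmodule c h1 (Submodule.mul_le.2 h2) hc
  obtain ⟨e, he, htor⟩ := NilV_exp Λ hΛ
  let L : Submodule ℤ S := Λ.map (e • LinearMap.id)
  have hL : ∀ g, ∀ x ∈ L, (f g - 1) * x ∈ L := by
    rintro g _ ⟨y, hy, rfl⟩
    exact ⟨_, hmul (Submodule.mul_mem_mul (hm g) hy), (mul_smul_comm e _ y).symm⟩
  refine ⟨NilV_sub f L hL, ?_, NilV_poly (f.comp (Subgroup.subtype _)) Λ hΛ (fun g => hm g)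
    (fun i => NilV_sat (Λ ^ (i + 1))) c ?_ ?_ ?_ (fun g => ⟨1, one_ne_zero, ?_⟩) ?_⟩
  · have hT : Module.Finite ℤ (Λ.map L.mkQ) := Module.Finite.iff_fg.2 (hΛ.map _)
    have hF : Finite (Λ.map L.mkQ) := Module.finite_of_fg_torsion _ (by
      rintro ⟨_, y, hy, rfl⟩
      exact ⟨⟨e, mem_nonZeroDivisors_of_ne_zero he⟩,
        Subtype.ext ((Submodule.Quotient.mk_eq_zero L).2 ⟨y, hy, rfl⟩)⟩)
    have hQ : Finite (U ⧸ NilV_sub f L hL) := by
      refine Finite.of_injective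
        (fun q => (⟨L.mkQ (f q.out - 1), _, hm _, rfl⟩ : Λ.map L.mkQ)) fun q q' h => ?_
      have h4 := (Submodule.Quotient.eq L).1 (congrArg Subtype.val h).symm
      rw [← q.out_eq', ← q'.out_eq']
      refine QuotientGroup.eq.2 ?_
      have h5 := add_mem (hL q.out⁻¹ _ h4) h4
      rwa [sub_sub_sub_cancel_right, sub_mul, one_mul, sub_add_cancel, mul_sub, ← map_mul,
        ← map_mul, inv_mul_cancel, map_one] at h5
    exact Subgroup.finiteIndex_of_finite_quotient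
  · rintro i g x ⟨m, hm0, hx⟩
    refine ⟨m, hm0, ?_⟩
    rw [← mul_smul_comm, pow_succ']
    exact Submodule.mul_mem_mul (hm g) hx
  · rintro i x ⟨m, hm0, hx⟩
    refine ⟨m, hm0, ?_⟩
    rw [pow_succ, pow_succ, mul_assoc] at hx
    rw [pow_succ]
    exact mul_le_mul_right hmul _ hx
  · rintro i m x hm0 ⟨n, hn, hx⟩
    exact ⟨n * m, mul_ne_zero hn hm0, by rwa [mul_smul]⟩
  · rw [one_smul, zero_add, pow_one]
    exact hm g
  · rintro ⟨g, y, hy, hg⟩ ⟨m, hm0, hx⟩
    have h4 : e • y = f g - 1 := hg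
    have h5 : m • (f g - 1) ∈ J.toIntSubmodule ^ (c + 1) := pow_le_pow_left' hJ _ hx
    rw [pow_succ, hc, Submodule.bot_mul, Submodule.mem_bot, ← h4, ← mul_smul] at h5
    rw [htor y hy _ (mul_ne_zero hm0 he) h5, eq_comm, sub_eq_zero, ← map_one f] at h4
    exact Subtype.ext (hf h4)

end Pool.Agent.MP_f7db47_al.GS
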