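import Pool.Agent.MP_f7db47_al.GZ.Span

/-!
Groups of matrices with finitely many traces are virtually unipotent.
-/

namespace Pool.Agent.MP_f7db47_al.GS

open Polynomial in
lemma Uni2_nil {K A : Type} [Field K] [Ring A] [Algebra K A] [Module.Finite K A] {a : A}
    (h : ∀ y, IsIdempotentElem (y * a) → y * a = 0) : IsNilpotent a := by
  obtain ⟨q, h1, h2⟩ := exists_eq_pow_rootMultiplicity_mul_and_not_dvd (minpoly K a)
    (minpoly.ne_zero (Algebra.IsIntegral.isIntegral a)) 0
  rw [C_0, sub_zero] at h1 h2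
  generalize rootMultiplicity 0 (minpoly K a) = k at h1
  obtain ⟨u, v, huv⟩ := (irreducible_X.coprime_iff_not_dvd.2 h2).pow_left (m := k + 1)
  have h0 : ∀ w : K[X], aeval a (w * (X ^ k * q)) = 0 := fun w => by
    rw [map_mul, ← h1, minpoly.aeval, mul_zero]
  have h3 : aeval a (u * X ^ k) * a = aeval a (u * X ^ (k + 1)) := by
    simp only [map_mul, aeval_X, pow_succ, mul_assoc]
  have h4 := h (aeval a (u * X ^ k)) (by
    rw [h3, IsIdempotentElem, ← map_mul, ← sub_eq_zero, ← map_sub, ← h0 (-(u * X * v))]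
    congr 1
    linear_combination (u * X ^ (k + 1)) * huv)
  refine ⟨k, ?_⟩
  have h5 : (X : K[X]) ^ k = X ^ k * (u * X ^ (k + 1)) + v * (X ^ k * q) := by
    linear_combination -X ^ k * huv
  rw [← aeval_X_pow (R := K) a, h5, map_add, h0, map_mul, ← h3, h4, mul_zero, add_zero]

theorem exists_unip {G K : Type} [Group G] [Field K] [CharZero K] {n : ℕ}
    (f : G →* Matrix (Fin n) (Fin n) K) (h : (Set.range fun g => (f g).trace).Finite) :
    ∃ (U : Subgroup G) (J : Submodule K (Matrix (Fin n) (Fin n) K)) (c : ℕ), U.FiniteIndex ∧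
      (∀ g ∈ U, f g - 1 ∈ J) ∧ (∀ a ∈ J, ∀ b ∈ J, a * b ∈ J) ∧
      ∀ l : List (Matrix (Fin n) (Fin n) K), l.length = c → (∀ a ∈ l, a ∈ J) → l.prod = 0 := by
  have hf : ∀ g, f g ∈ GZ.spn f ⊤ := fun g => GZ.mem_spn f trivial
  let A : Subalgebra K (Matrix (Fin n) (Fin n) K) :=
    (GZ.spn f ⊤).toSubalgebra (map_one f ▸ hf 1) fun _ _ => GZ.spn_mul f
  let J : Submodule K (Matrix (Fin n) (Fin n) K) :=
    { carrier := {a | a ∈ A ∧ ∀ y ∈ A, (y * a).trace = 0}
      add_mem' := fun ha hb => ⟨add_mem ha.1 hb.1, fun y hy => by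
        rw [mul_add, Matrix.trace_add, ha.2 y hy, hb.2 y hy, add_zero]⟩
      zero_mem' := ⟨zero_mem _, fun y _ => by simp⟩
      smul_mem' := fun c a ha => ⟨A.smul_mem ha.1 c, fun y hy => by
        rw [mul_smul_comm, Matrix.trace_smul, ha.2 y hy, smul_zero]⟩ }
  have hl : ∀ y ∈ A, ∀ a ∈ J, y * a ∈ J := fun y hy a ha =>
    ⟨mul_mem hy ha.1, fun z hz => by rw [← mul_assoc]; exact ha.2 _ (mul_mem hz hy)⟩
  let U : Subgroup G :=
    { carrier := {g | f g - 1 ∈ J}
      mul_mem' := fun {g k} hg hk => by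
        have := add_mem (hl _ (hf g) _ hk) hg
        rwa [mul_sub, mul_one, sub_add_sub_cancel, ← map_mul] at this
      one_mem' := by simp
      inv_mem' := fun {g} hg => by
        have := neg_mem (hl _ (hf g⁻¹) _ hg)
        rwa [mul_sub, mul_one, neg_sub, ← map_mul, inv_mul_cancel, map_one] at this }
  have := IsArtinianRing.of_finite K A
  obtain ⟨c, hc⟩ := IsSemiprimaryRing.isNilpotent (R := A)
  refine ⟨U, J, c, ?_, fun _ => id, fun a ha => hl a ha.1, fun l hlc hJ => ?_⟩
  · obtain ⟨b, hb, hs, hi⟩ := exists_linearIndependent K (f '' (⊤ : Subgroup G))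
    have := hi.finite
    have := h.to_subtype
    have : Finite (G ⧸ U) := by
      refine Finite.of_injective (β := b → Set.range fun g => (f g).trace)
        (fun q x => ⟨(x.1 * f q.out).trace, ?_⟩) fun q q' e => ?_
      · obtain ⟨g, -, e⟩ := hb x.2
        exact ⟨g * q.out, by simp only [map_mul, e]⟩
      · rw [← q.out_eq, ← q'.out_eq, QuotientGroup.eq]
        have h1 : f q'.out - f q.out ∈ J := by
          refine ⟨sub_mem (hf _) (hf _), fun y hy => ?_⟩
          have hy' : y ∈ Submodule.span K b := hs ▸ hy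
          clear hy
          induction hy' using Submodule.span_induction with
          | zero => simp
          | add x y _ _ hx hy => rw [add_mul, Matrix.trace_add, hx, hy, add_zero]
          | smul c x _ hx => rw [smul_mul_assoc, Matrix.trace_smul, hx, smul_zero]
          | mem x hx =>
            rw [mul_sub, Matrix.trace_sub, sub_eq_zero]
            exact (congrArg Subtype.val (congrFun e ⟨x, hx⟩)).symm
        have := hl _ (hf q.out⁻¹) _ h1
        rwa [mul_sub, ← map_mul, ← map_mul, inv_mul_cancel, map_one] at this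
    exact Subgroup.finiteIndex_of_finite_quotient
  · have hj : ∀ a : A, a.1 ∈ J → a ∈ Ring.jacobson A := fun a ha => by
      rw [← Ideal.jacobson_bot, Ideal.mem_jacobson_iff]
      intro y
      have h0 : IsNilpotent (y * a) := Uni2_nil (K := K) fun w hw => by
        have h1 := (hl _ w.2 _ (hl _ y.2 _ ha)).2 1 A.one_mem
        rw [one_mul, ← Matrix.trace_toLin'_eq] at h1
        exact Subtype.ext (Matrix.toLin'.injective
          ((LinearMap.IsIdempotentElem.eq_zero_of_trace_eq_zero
            ((hw.map A.val).map Matrix.toLinAlgEquiv') h1).trans (map_zero _).symm))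
      obtain ⟨z, hz⟩ := h0.isUnit_one_add
      refine ⟨↑z⁻¹, ?_⟩
      rw [Ideal.mem_bot, sub_eq_zero, ← z.inv_mul, hz, mul_add, mul_one, mul_assoc, add_comm]
    have key : ∃ b ∈ Ring.jacobson A ^ l.length, b.1 = l.prod := by
      clear hlc
      induction l with
      | nil => exact ⟨1, by simp [Submodule.pow_zero], rfl⟩
      | cons a l ih =>
        obtain ⟨b, h1, h2⟩ := ih fun x hx => hJ x (List.mem_cons_of_mem _ hx)
        have h3 := hJ a List.mem_cons_self
        refine ⟨⟨a, h3.1⟩ * b, ?_, by rw [List.prod_cons, ← h2]; rfl⟩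
        rw [List.length_cons, Ideal.IsTwoSided.pow_succ]
        exact Ideal.mul_mem_mul (hj _ h3) h1
    obtain ⟨b, h1, h2⟩ := key
    rw [hlc, hc] at h1
    rw [← h2, Ideal.mem_bot.1 h1]
    rfl

end Pool.Agent.MP_f7db47_al.GS
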