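import Pool.Agent.MP_f7db47_al.GN.GA

/-!
Finitely generated groups of quasi-unipotent matrices in prime characteristic.
-/

namespace Pool.Agent.MP_f7db47_al.GS

theorem UniP_core (p : ℕ) [Fact p.Prime] {A k : Type} [CommRing A] [IsDomain A] [CharP A p]
    [Field k] [CharP k p] (φ : A →+* k) {n m : ℕ} (hm : 0 < m) (x : Matrix (Fin n) (Fin n) A)
    (h1 : φ.mapMatrix x = 1) (h : IsNilpotent (x ^ m - 1)) : IsNilpotent (x - 1) := by
  rcases isEmpty_or_nonempty (Fin n) with hn | hn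
  · exact ⟨1, Subsingleton.elim _ _⟩
  obtain ⟨a, r, hr, rfl⟩ := Nat.exists_eq_pow_mul_and_not_dvd hm.ne' p (Fact.out : p.Prime).ne_one
  have h2 : x ^ (p ^ a * r) - 1 = (x ^ r - 1) ^ p ^ a := by
    rw [sub_pow_char_pow_of_commute p a (Commute.one_right _), one_pow, ← pow_mul, mul_comm]
  rw [h2] at h
  obtain ⟨N, hN⟩ := h.of_pow
  have h3 : Commute (x - 1) (∑ i ∈ Finset.range r, x ^ i) :=
    Commute.sum_right _ _ _ fun i _ =>
      ((Commute.refl x).sub_left (Commute.one_left x)).pow_right i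
  rw [← mul_geom_sum, h3.mul_pow] at hN
  have h4 : ((∑ i ∈ Finset.range r, x ^ i) ^ N).det ≠ 0 := fun e => by
    have h5 := congrArg φ e
    rw [RingHom.map_det, map_pow, map_sum, map_zero] at h5
    simp only [map_pow, h1, one_pow, Finset.sum_const, Finset.card_range] at h5
    rw [Matrix.det_pow, ← Nat.cast_smul_eq_nsmul k, Matrix.det_smul, Matrix.det_one,
      mul_one] at h5
    exact hr ((CharP.cast_eq_zero_iff k p r).1 (eq_zero_of_pow_eq_zero (eq_zero_of_pow_eq_zero h5)))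
  refine ⟨N, (smul_eq_zero_iff_right h4).1 ?_⟩
  rw [← mul_one ((x - 1) ^ N), ← Matrix.mul_smul, ← Matrix.mul_adjugate, ← mul_assoc, hN, zero_mul]

theorem exists_unipP (p : ℕ) [Fact p.Prime] {G K : Type} [Group G] [Group.FG G] [Field K]
    [CharP K p] {n : ℕ} (f : G →* GL (Fin n) K)
    (h : ∀ g, ∃ m, 0 < m ∧ IsNilpotent ((f g).val ^ m - 1)) :
    ∃ U : Subgroup G, U.FiniteIndex ∧ ∀ g ∈ U, IsNilpotent ((f g).val - 1) := by
  obtain ⟨A, f₀, hA, hf⟩ := GN.exists_fg_subring ‹_› K n f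
  obtain ⟨Q, hQ⟩ := Ideal.exists_maximal A
  let := Ideal.Quotient.field Q
  have hc : CharP (A ⧸ Q) p := (CharP.charP_iff_prime_eq_zero Fact.out).2 (by
    rw [← map_natCast (Ideal.Quotient.mk Q), CharP.cast_eq_zero, map_zero])
  let := ZMod.algebra (A ⧸ Q) p
  have h1 : Algebra.FiniteType ℤ (A ⧸ Q) :=
    hA.of_surjective (Ideal.Quotient.mk Q).toIntAlgHom Ideal.Quotient.mk_surjective
  have h2 : Algebra.FiniteType (ZMod p) (A ⧸ Q) :=
    Algebra.FiniteType.of_restrictScalars_finiteType ℤ _ _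
  have h3 : Module.Finite (ZMod p) (A ⧸ Q) := finite_of_finite_type_of_isJacobsonRing _ _
  have h4 : Finite (A ⧸ Q) := Module.finite_of_finite (ZMod p)
  have h5 : Function.Injective (A.subtype.mapMatrix (m := Fin n)) :=
    Matrix.map_injective A.subtype_injective
  refine ⟨((Matrix.GeneralLinearGroup.map (Ideal.Quotient.mk Q)).comp f₀).ker, inferInstance,
    fun g hg => ?_⟩
  obtain ⟨m, hm, h6⟩ := h g
  have h7 : (f g).val = A.subtype.mapMatrix (f₀ g).val := by rw [← hf]; rfl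
  rw [h7, ← map_one (A.subtype.mapMatrix (m := Fin n))] at h6 ⊢
  rw [← map_pow, ← map_sub, IsNilpotent.map_iff h5] at h6
  rw [← map_sub, IsNilpotent.map_iff h5]
  exact UniP_core p (Ideal.Quotient.mk Q) hm _ (congrArg Units.val hg) h6

end Pool.Agent.MP_f7db47_al.GS
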