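import Pool.Agent.MP_f7db47_al.GS.Uni1
import Pool.Agent.MP_f7db47_al.GS.Uni2
import Pool.Agent.MP_f7db47_al.GS.Kol
import Pool.Agent.MP_f7db47_al.GS.UniP
import Pool.Agent.MP_f7db47_al.GS.NilV

/-!
Finitely generated groups of quasi-unipotent matrices over commutative rings.
-/

namespace Pool.Agent.MP_f7db47_al.GS

theorem UniA_field {G K : Type} [Group G] [Group.FG G] [Field K] {n : ℕ} (f : G →* GL (Fin n) K)
    (h : ∀ g, ∃ m, 0 < m ∧ IsNilpotent ((f g).val ^ m - 1)) :
    ∃ (U : Subgroup G) (J : AddSubgroup (Matrix (Fin n) (Fin n) K)) (c : ℕ), U.FiniteIndex ∧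
      (∀ g ∈ U, (f g).val - 1 ∈ J) ∧ (∀ a ∈ J, ∀ b ∈ J, a * b ∈ J) ∧
      ∀ l : List (Matrix (Fin n) (Fin n) K), l.length = c → (∀ a ∈ l, a ∈ J) → l.prod = 0 := by
  have hc : CharP K (ringChar K) := ringChar.charP _
  rcases CharP.char_is_prime_or_zero K (ringChar K) with hp | hp
  · have : Fact (ringChar K).Prime := ⟨hp⟩
    obtain ⟨U, hU, h1⟩ := exists_unipP (ringChar K) f h
    obtain ⟨J, c, h2, h3, h4⟩ := kolchin (((Units.coeHom _).comp f).comp U.subtype)
      fun g => h1 g g.2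
    exact ⟨U, J, c, hU, fun g hg => h2 ⟨g, hg⟩, h3, h4⟩
  · rw [hp] at hc
    have := CharP.charP_to_charZero K
    obtain ⟨U, J, c, hU, h1, h2, h3⟩ := exists_unip ((Units.coeHom _).comp f) (finite_traces f h)
    exact ⟨U, J.toAddSubgroup, c, hU, h1, h2, h3⟩

theorem UniA_pow {A : Type} [CommRing A] {n c : ℕ} (N : Ideal A)
    (p : Matrix (Fin n) (Fin n) A → Prop)
    (h : ∀ l : List (Matrix (Fin n) (Fin n) A), l.length = c → (∀ a ∈ l, p a) →
      ∀ i j, l.prod i j ∈ N) (k : ℕ) : ∀ l : List (Matrix (Fin n) (Fin n) A), l.length = c * k →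
      (∀ a ∈ l, p a) → ∀ i j, l.prod i j ∈ N ^ k := by
  induction k with
  | zero => simp
  | succ k ih =>
    intro l hl hp i j
    rw [mul_add_one] at hl
    rw [← List.take_append_drop c l, List.prod_append, Matrix.mul_apply, pow_succ']
    exact Ideal.sum_mem _ fun x _ => Ideal.mul_mem_mul
      (h _ (by rw [List.length_take]; omega) (fun a ha => hp a (List.mem_of_mem_take ha)) i x)
      (ih _ (by rw [List.length_drop]; omega) (fun a ha => hp a (List.mem_of_mem_drop ha)) x j)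

theorem UniA_noeth {G A : Type} [Group G] [Group.FG G] [CommRing A] [IsNoetherianRing A] {n : ℕ}
    (f : G →* GL (Fin n) A) (hf : Function.Injective f)
    (h : ∀ g, ∃ m, 0 < m ∧ IsNilpotent ((f g).val ^ m - 1)) : VP G := by
  have hfin : Finite (minimalPrimes A) := (minimalPrimes.finite_of_isNoetherianRing A).to_subtype
  have := Fintype.ofFinite (minimalPrimes A)
  have hp : ∀ Q : minimalPrimes A, Q.1.IsPrime := fun Q => Ideal.IsMinimalPrime.isPrime Q.2
  let π : ∀ Q : minimalPrimes A, A →+* FractionRing (A ⧸ Q.1) := fun Q =>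
    (algebraMap (A ⧸ Q.1) _).comp (Ideal.Quotient.mk Q.1)
  have hπ : ∀ Q x, π Q x = 0 → x ∈ Q.1 := fun Q x hx => Ideal.Quotient.eq_zero_iff_mem.1
    ((map_eq_zero_iff _ (IsFractionRing.injective (A ⧸ Q.1) _)).1 hx)
  have e : ∀ Q g m, (π Q).mapMatrix ((f g).val ^ m - 1) =
      ((Matrix.GeneralLinearGroup.map (π Q)).comp f g).val ^ m - 1 := fun Q g m => by
    rw [map_sub, map_pow, map_one]
    rfl
  choose U J c hU h1 h2 h3 using fun Q => UniA_field
    ((Matrix.GeneralLinearGroup.map (π Q)).comp f) fun g =>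
      (h g).imp fun m hm => ⟨hm.1, e Q g m ▸ hm.2.map _⟩
  have hU' : (⨅ Q, U Q).FiniteIndex := Subgroup.finiteIndex_iInf hU
  obtain ⟨k, hk⟩ := IsNoetherianRing.isNilpotent_nilradical A
  obtain ⟨W, hW, hP⟩ := vp_of_nil (((Units.coeHom _).comp f).comp (⨅ Q, U Q).subtype)
    ((Units.val_injective.comp hf).comp (Subgroup.subtype_injective _))
    (⨅ Q, (J Q).comap (π Q).mapMatrix.toAddMonoidHom) ((∑ Q, c Q) * k)
    (fun g => AddSubgroup.mem_iInf.2 fun Q => by
      have := h1 Q g (Subgroup.mem_iInf.1 g.2 Q)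
      rw [← pow_one (Units.val _), ← e, pow_one] at this
      exact this)
    (fun a ha b hb => AddSubgroup.mem_iInf.2 fun Q => by
      rw [AddSubgroup.mem_iInf] at ha hb
      show (π Q).mapMatrix (a * b) ∈ J Q
      rw [map_mul]
      exact h2 Q _ (ha Q) _ (hb Q))
    fun l hl hm => Matrix.ext fun i j => by
      have := UniA_pow (nilradical A) _ (fun l hl hm i j => ?_) k l hl hm i j
      · rwa [hk] at this
      rw [nilradical, ← Ideal.sInf_minimalPrimes, Ideal.mem_sInf]
      intro Q hQ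
      have h4 := Finset.single_le_sum (f := c) (fun _ _ => Nat.zero_le _) (Finset.mem_univ ⟨Q, hQ⟩)
      have h5 : (π ⟨Q, hQ⟩).mapMatrix l.prod = 0 := by
        rw [← List.take_append_drop (c ⟨Q, hQ⟩) l, List.prod_append, map_mul, map_list_prod,
          h3 _ _ (by rw [List.length_map, List.length_take]; omega), zero_mul]
        intro a ha
        obtain ⟨b, hb, rfl⟩ := List.mem_map.1 ha
        exact AddSubgroup.mem_iInf.1 (hm b (List.mem_of_mem_take hb)) ⟨Q, hQ⟩
      exact hπ ⟨Q, hQ⟩ _ (congrFun (congrFun h5 i) j)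
  refine ⟨W.map (Subgroup.subtype _), ⟨?_⟩, polyZ_of_injective hP _
    (W.equivMapOfInjective _ (Subgroup.subtype_injective _)).symm.toMonoidHom (MulEquiv.injective _)⟩
  rw [Subgroup.index_map_subtype]
  exact mul_ne_zero hW.index_ne_zero hU'.index_ne_zero

theorem vp_of_quasiA {G A : Type} [Group G] [Group.FG G] [CommRing A] {n : ℕ}
    (f : G →* GL (Fin n) A) (hf : Function.Injective f)
    (h : ∀ g, ∃ m, 0 < m ∧ IsNilpotent ((f g).val ^ m - 1)) : VP G :=
  by
  obtain ⟨A₀, f₀, hfg, hf₀⟩ := GN.exists_fg_subring inferInstance A n f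
  have : IsNoetherianRing A₀ := Algebra.FiniteType.isNoetherianRing ℤ A₀
  refine UniA_noeth f₀ (fun a b e => hf (by rw [← hf₀, ← hf₀, e])) fun g =>
    (h g).imp fun m hm => ⟨hm.1, (IsNilpotent.map_iff (f := A₀.subtype.mapMatrix)
      (Matrix.map_injective A₀.subtype_injective)).1 ?_⟩
  rw [map_sub, map_pow, map_one]
  have := hm.2
  rwa [← hf₀ g] at this

end Pool.Agent.MP_f7db47_al.GS
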