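import Pool.Agent.MP_f7db47_al.GS.Lin
import Pool.Agent.MP_f7db47_al.GS.Cmp
import Pool.Agent.MP_f7db47_al.GS.UniA
import Pool.Agent.MP_f7db47_al.PT.Val

/-!
General linear groups over arbitrary commutative rings.
-/

namespace Pool.Agent.MP_f7db47_al.GS

open Function GF Matrix

universe v

variable {R : Type v} [Ring R] {G : Type} [Group G]

variable (R) in
/-- Reduction to extensions by subgroups of `ℤ` of groups whose elements satisfy `P`. -/
def Red (P : G → Prop) : Prop :=
  ∀ (M : Type) [Group M] (i : M →* G), (∀ (H : Type) [Group H] (j : H →* M), Injective j →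
    ∀ φ : H →* Multiplicative ℤ, (∀ g, φ g = 1 → P (i (j g))) → QQ R H) → QQ R M

variable (R) in
/-- Reduction to groups whose commutator subgroup satisfies `P`. -/
def Red2 (P : G → Prop) : Prop :=
  ∀ (M : Type) [Group M] (i : M →* G),
    (∀ H : Subgroup M, (∀ g ∈ ⁅H, H⁆, P (i g)) → QQ R H) → QQ R M

theorem Red.mono {P Q : G → Prop} (h : Red R P) (hQ : ∀ g, P g → Q g) : Red R Q :=
  fun M _ i hM => h M i fun H _ j hj φ hφ => hM H j hj φ fun g hg => hQ _ (hφ g hg)

theorem Red2.mono {P Q : G → Prop} (h : Red2 R P) (hQ : ∀ g, P g → Q g) : Red2 R Q :=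
  fun M _ i hM => h M i fun H hH => hM H fun g hg => hQ _ (hH g hg)

theorem Red.and {P Q : G → Prop} (h : Red R P) (h' : Red R Q) : Red R fun g => P g ∧ Q g :=
  fun M _ i hM => h M i fun H _ j hj φ hφ => h' H (i.comp j) fun _ _ j₂ hj₂ φ₂ hφ₂ =>
    PT.qq_abq' (Q := Multiplicative ℤ × Multiplicative ℤ)
      (fun _ hq => by_contra fun e => isMulTorsionFree_iff_not_isOfFinOrder.1 inferInstance e hq)
      ((φ.comp j₂).prod φ₂) fun H₃ ψ hψ =>
      hM H₃ (j.comp (j₂.comp H₃.subtype)) (hj.comp (hj₂.comp H₃.subtype_injective)) ψ fun g hg =>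
        ⟨hφ _ (congrArg Prod.fst (hψ g hg)), hφ₂ _ (congrArg Prod.snd (hψ g hg))⟩

theorem Red2.and {P Q : G → Prop} (h : Red2 R P) (h' : Red2 R Q) :
    Red2 R fun g => P g ∧ Q g :=
  fun M _ i hM => h M i fun H hH => h' H (i.comp H.subtype) fun H₂ hH₂ =>
    (hM (H₂.map H.subtype) fun g hg => ⟨hH g (Subgroup.commutator_mono
      (Subgroup.map_subtype_le _) (Subgroup.map_subtype_le _) hg), by
        rw [← Subgroup.map_commutator] at hg
        obtain ⟨x, hx, rfl⟩ := hg
        exact hH₂ x hx⟩).sub (H₂.equivMapOfInjective _ H.subtype_injective).toMonoidHom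
      (MulEquiv.injective _)

theorem Red.all {ι : Type} {P : ι → G → Prop} (h : ∀ a, Red R (P a)) (s : Finset ι) :
    Red R fun g => ∀ a ∈ s, P a g := by
  classical
  induction s using Finset.induction_on with
  | empty => exact fun M _ i hM => hM M (MonoidHom.id _) injective_id 1 fun _ _ _ h => by simp at h
  | insert a s _ ih => exact ((h a).and ih).mono fun g hg => by simpa using hg

theorem Red2.all {ι : Type} {P : ι → G → Prop} (h : ∀ a, Red2 R (P a)) (s : Finset ι) :
    Red2 R fun g => ∀ a ∈ s, P a g := by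
  classical
  induction s using Finset.induction_on with
  | empty =>
    exact fun M _ i hM => (hM ⊤ fun _ _ _ h => by simp at h).sub
      Subgroup.topEquiv.symm.toMonoidHom (MulEquiv.injective _)
  | insert a s _ ih => exact ((h a).and ih).mono fun g hg => by simpa using hg

theorem Red2.red {P : G → Prop} (h : Red2 R P) : Red R fun g => ∃ k, 0 < k ∧ P (g ^ k) :=
  fun M _ i hM => h M i fun H hH => qq_iso H fun L ψ hψ =>
    hM L (H.subtype.comp L.subtype) (H.subtype_injective.comp L.subtype_injective) ψ fun g hg => by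
      obtain ⟨k, hk, h1⟩ := hψ g hg
      exact ⟨k, hk, map_pow i _ k ▸ hH _ h1⟩

theorem red2_coeff (p : ℕ) [Fact p.Prime] {A : Type} [CommRing A] [IsDomain A]
    [Algebra (ZMod p) A] [Algebra.FiniteType (ZMod p) A] {n : ℕ} (f : G →* GL (Fin n) A)
    (c : ℕ) : Red2 R fun g => IsIntegral (ZMod p) ((f g).val.charpoly.coeff c) := by
  intro M _ i hM
  obtain ⟨L, _, φ, m, w, hφ, h1, h2⟩ := PT.exists_vals p A
  choose P ρ hρ using fun l => GN.exists_place (w l) (h1 l) n
  obtain ⟨κ, _, _, Λ, hΛ⟩ := exists_compound L n c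
  let _ : Algebra (ZMod p) L := (φ.comp (algebraMap (ZMod p) A)).toAlgebra
  let φ' : A →ₐ[ZMod p] L := { φ with commutes' := fun _ => rfl }
  have hk : ∀ x : GL (Fin n) A, (Λ (φ.mapMatrix x.val)).trace ∈
      (algebraicClosure (ZMod p) L).toSubfield ↔ IsIntegral (ZMod p) (x.val.charpoly.coeff c) :=
    fun x => by
      have h3 : (φ.mapMatrix x.val).charpoly.coeff c = φ' (x.val.charpoly.coeff c) := by
        rw [RingHom.mapMatrix_apply, charpoly_map, Polynomial.coeff_map]; rfl
      rw [← isIntegral_algHom_iff φ' hφ, ← h3, ← mem_algebraicClosure_iff']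
      rcases hΛ (φ.mapMatrix x.val) with e | e <;> rw [e]
      · rfl
      · exact neg_mem_iff
  refine GZ.qq_lat2 P n (fun l => (ρ l).comp ((GeneralLinearGroup.map φ).comp (f.comp i)))
    (algebraicClosure (ZMod p) L).toSubfield
    (Λ.comp (φ.mapMatrix.toMonoidHom.comp ((Units.coeHom _).comp (f.comp i))))
    (fun g hg => (hk _).2 (h2 _ fun l => ?_)) fun H hH => hM H fun g hg => (hk _).1 (hH g hg)
  have h3 : (GeneralLinearGroup.map φ (f (i g))).val.charpoly = (f (i g)).val.charpoly.map φ :=
    charpoly_map _ φ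
  have := hρ l _ (hg l) c
  rwa [MonoidHom.comp_apply, MonoidHom.comp_apply, h3, Polynomial.coeff_map] at this

theorem red_domain (hB : StB R) {A : Type} [CommRing A] [IsDomain A]
    (hA : Algebra.FiniteType ℤ A) {n : ℕ} (f : G →* GL (Fin n) A) :
    Red R fun g => QU (f g).val := by
  have hc : CharP A (ringChar A) := ringChar.charP _
  rcases CharP.char_is_prime_or_zero A (ringChar A) with hp | hp
  · have : Fact (ringChar A).Prime := ⟨hp⟩
    let _ := ZMod.algebra A (ringChar A)
    have : Algebra.FiniteType (ZMod (ringChar A)) A :=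
      Algebra.FiniteType.of_restrictScalars_finiteType ℤ _ _
    refine (Red2.all (red2_coeff (ringChar A) f) (Finset.range (n + 1))).red.mono ?_
    rintro g ⟨k, hk, h⟩
    obtain ⟨m, hm, h1⟩ := isOfFinOrder_iff_pow_eq_one.1
      (GN.finOrder_of_integral (ringChar A) A n (f (g ^ k)) fun c => by
        by_cases hc : c < n + 1
        · exact h c (Finset.mem_range.2 hc)
        · rw [Polynomial.coeff_eq_zero_of_natDegree_lt (by
            rw [charpoly_natDegree_eq_dim, Fintype.card_fin]; omega)]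
          exact isIntegral_zero)
    refine ⟨k * m, Nat.mul_pos hk hm, ?_⟩
    rw [← Units.val_pow_eq_pow_val, pow_mul, ← map_pow f g k, h1, Units.val_one, sub_self]
    exact IsNilpotent.zero
  · rw [hp] at hc
    have := CharP.charP_to_charZero A
    have hi := IsFractionRing.injective A (FractionRing A)
    have : CharZero (FractionRing A) := charZero_of_injective_algebraMap hi
    intro M _ i hM
    refine qq_glQU hB ((GeneralLinearGroup.map (algebraMap A (FractionRing A))).comp (f.comp i))
      fun H φ hφ => hM H H.subtype H.subtype_injective φ fun g hg => ?_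
    obtain ⟨m, hm, h1⟩ := hφ g hg
    refine ⟨m, hm, (IsNilpotent.map_iff (f := (algebraMap A (FractionRing A)).mapMatrix)
      (Matrix.map_injective hi)).1 ?_⟩
    rw [map_sub, map_pow, map_one]
    exact h1

theorem qu_of_primes {A : Type} [CommRing A] [IsNoetherianRing A] {n : ℕ}
    (x : Matrix (Fin n) (Fin n) A)
    (h : ∀ Q : minimalPrimes A, QU ((Ideal.Quotient.mk Q.1).mapMatrix x)) : QU x := by
  have : Finite (minimalPrimes A) := (minimalPrimes.finite_of_isNoetherianRing A).to_subtype
  have := Fintype.ofFinite (minimalPrimes A)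
  choose m hm h using h
  have h1 : ∀ Q : minimalPrimes A,
      IsNilpotent ((Ideal.Quotient.mk Q.1).mapMatrix (x ^ ∏ Q, m Q - 1)) := fun Q => by
    obtain ⟨c, hc⟩ := Finset.dvd_prod_of_mem m (Finset.mem_univ Q)
    rw [map_sub, map_pow, map_one, hc, pow_mul, ← geom_sum_mul]
    refine Commute.isNilpotent_mul_left ?_ (h Q)
    exact Commute.sum_left _ _ _ fun j _ =>
      ((Commute.refl _).pow_left j).sub_right (Commute.one_right _)
  choose k hk using h1
  refine ⟨∏ Q, m Q, Finset.prod_pos fun Q _ => hm Q, IsNilpotent.of_pow (m := ∑ Q, k Q)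
    (GN.GA_nil _ fun a b => ?_)⟩
  rw [← mem_nilradical, nilradical, ← Ideal.sInf_minimalPrimes, Ideal.mem_sInf]
  intro Q hQ
  have h2 := pow_eq_zero_of_le (Finset.single_le_sum (f := k) (fun _ _ => Nat.zero_le _)
    (Finset.mem_univ ⟨Q, hQ⟩)) (hk ⟨Q, hQ⟩)
  rw [← map_pow] at h2
  exact Ideal.Quotient.eq_zero_iff_mem.1 (congrFun (congrFun h2 a) b)

theorem qq_glA (hB : StB R) {A : Type} [CommRing A] {n : ℕ} (f : G →* GL (Fin n) A)
    (h : ∀ (H : Subgroup G) (φ : H →* Multiplicative ℤ),
      (∀ g : H, φ g = 1 → QU (f g).val) → QQ R H) : QQ R G := by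
  refine PT.qq_loc fun M hM => ?_
  obtain ⟨A₀, f₀, hA, hf⟩ :=
    GN.exists_fg_subring ((Group.fg_iff_subgroup_fg M).2 hM) A n (f.comp M.subtype)
  have : IsNoetherianRing A₀ := Algebra.FiniteType.isNoetherianRing ℤ A₀
  have : Finite (minimalPrimes A₀) := (minimalPrimes.finite_of_isNoetherianRing A₀).to_subtype
  have := Fintype.ofFinite (minimalPrimes A₀)
  refine Red.all (fun Q : minimalPrimes A₀ =>
    have := Ideal.minimalPrimes_isPrime Q.2
    red_domain hB (hA.of_surjective (Ideal.Quotient.mk Q.1).toIntAlgHom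
      Ideal.Quotient.mk_surjective)
      ((GeneralLinearGroup.map (Ideal.Quotient.mk Q.1)).comp f₀)) Finset.univ M (MonoidHom.id _)
    fun H _ j hj φ hφ => ?_
  have hi : Injective (M.subtype.comp j) := M.subtype_injective.comp hj
  let e := MonoidHom.ofInjective hi
  refine (h _ (φ.comp e.symm.toMonoidHom) fun g hg => ?_).sub e.toMonoidHom e.injective
  obtain ⟨x, rfl⟩ := e.surjective g
  obtain ⟨m, hm, h1⟩ := qu_of_primes (f₀ (j x)).val fun Q =>
    hφ x (by simpa using hg) Q (Finset.mem_univ Q)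
  have h2 := h1.map A₀.subtype.mapMatrix
  rw [map_sub, map_pow, map_one] at h2
  have h3 : A₀.subtype.mapMatrix (f₀ (j x)).val = (f (j x)).val := congrArg Units.val (hf (j x))
  exact ⟨m, hm, h3 ▸ h2⟩

theorem qq_quasiA (hR : RegularRing R) {A : Type} [CommRing A] {n : ℕ}
    (f : G →* GL (Fin n) A) (hf : Injective f) (hT : TF G) (φ : G →* Multiplicative ℤ)
    (h : ∀ g, φ g = 1 → QU (f g).val) : QQ R G := by
  have hV : ∀ (M : Type) [Group M] [Group.FG M] (i : M →* G), Injective i →
      (∀ x, φ (i x) = 1) → VP M := fun M _ _ i hi hM =>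
    vp_of_quasiA (f.comp i) (hf.comp hi) fun g => h _ (hM g)
  refine qq_line_vp hR hT φ (PT.qq_loc fun M hM => ?_) fun M hM hle => ?_
  · have := (Group.fg_iff_subgroup_fg M).2 hM
    have hi := φ.ker.subtype_injective.comp M.subtype_injective
    exact qq_vp hR (TF.sub hT (φ.ker.subtype.comp M.subtype) hi)
      (hV M (φ.ker.subtype.comp M.subtype) hi fun x => x.1.2)
  · have := (Group.fg_iff_subgroup_fg M).2 hM
    exact hV M M.subtype M.subtype_injective fun x => hle x.2

theorem qq_linA (hR : RegularRing R) (hB : StB R) {A : Type} [CommRing A] {n : ℕ}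
    (f : G →* GL (Fin n) A) (hf : Injective f) (hT : TF G) : QQ R G :=
  qq_glA hB f fun H φ h => qq_quasiA hR (f.comp H.subtype) (hf.comp H.subtype_injective)
    (hT.sub _ H.subtype_injective) φ h

end Pool.Agent.MP_f7db47_al.GS
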