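import Pool.Agent.MP_f7db47_al.GN.GA

/-!
Finitely generated groups of quasi-unipotent matrices have finitely many traces.
-/

namespace Pool.Agent.MP_f7db47_al.GS

open Polynomial

theorem Uni1_root {E : Type} [Field E] {n m : ℕ} {T : Matrix (Fin n) (Fin n) E}
    (h : IsNilpotent (T ^ m - 1)) {μ : E} (hμ : μ ∈ T.charpoly.roots) : μ ^ m = 1 := by
  have h1 := Matrix.mem_spectrum_iff_isRoot_charpoly.2 (isRoot_of_mem_roots hμ)
  obtain ⟨k, hk⟩ := h
  have h2 := spectrum.subset_polynomial_aeval T ((X ^ m - 1) ^ k) ⟨μ, h1, rfl⟩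
  rcases subsingleton_or_nontrivial (Matrix (Fin n) (Fin n) E) with _ | _
  · simp [spectrum.of_subsingleton] at h1
  · simp only [map_pow, map_sub, aeval_X, map_one, hk, spectrum.zero_eq, eval_pow, eval_sub,
      eval_X, eval_one, Set.mem_singleton_iff] at h2
    exact sub_eq_zero.1 (pow_eq_zero_iff'.1 h2).1

theorem Uni1_sum {A E : Type} [CommRing A] [Field E] [IsAlgClosed E] (φ : A →+* E) {n m : ℕ}
    {T : Matrix (Fin n) (Fin n) A} (h : IsNilpotent (T ^ m - 1)) :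
    ∃ s : Multiset E, φ T.trace = s.sum ∧ s.card ≤ n ∧ ∀ μ ∈ s, μ ^ m = 1 := by
  refine ⟨(T.map φ).charpoly.roots, ?_, ?_, fun μ hμ => Uni1_root ?_ hμ⟩
  · rw [← Matrix.trace_eq_sum_roots_charpoly, AddMonoidHom.map_trace]
  · simpa using card_roots' (T.map φ).charpoly
  · have h1 := h.map φ.mapMatrix
    rwa [map_sub, map_pow, map_one] at h1

theorem Uni1_int {A E : Type} [CommRing A] [Field E] [IsAlgClosed E] (φ : A →+* E)
    (hφ : Function.Injective φ) {n m : ℕ} (hm : 0 < m) {T : Matrix (Fin n) (Fin n) A}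
    (h : IsNilpotent (T ^ m - 1)) : IsIntegral ℤ T.trace := by
  obtain ⟨s, h1, _, h2⟩ := Uni1_sum φ h
  refine (isIntegral_algHom_iff φ.toIntAlgHom hφ).1 ?_
  rw [RingHom.toIntAlgHom_apply, h1]
  exact IsIntegral.multiset_sum fun μ hμ => IsIntegral.of_pow hm (h2 μ hμ ▸ isIntegral_one)

theorem Uni1_norm {A : Type} [CommRing A] (φ : A →+* ℂ) {n m : ℕ} (hm : 0 < m)
    {T : Matrix (Fin n) (Fin n) A} (h : IsNilpotent (T ^ m - 1)) : ‖φ T.trace‖ ≤ n := by
  obtain ⟨s, h1, h2, h3⟩ := Uni1_sum φ h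
  rw [h1]
  refine (norm_multiset_sum_le s).trans ((Multiset.sum_le_card_nsmul _ 1 fun x hx => ?_).trans ?_)
  · obtain ⟨μ, hμ, rfl⟩ := Multiset.mem_map.1 hx
    exact (Complex.norm_eq_one_of_pow_eq_one (h3 μ hμ) hm.ne').le
  · simpa using h2

theorem Uni1_res (B : Type) [CommRing B] [Nontrivial B] [Algebra ℚ B] [Algebra.FiniteType ℚ B] :
    ∃ (L : Type) (_ : Field L) (_ : NumberField L), Nonempty (B →+* L) := by
  obtain ⟨m, hmax⟩ := Ideal.exists_maximal B
  let _ := Ideal.Quotient.field m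
  have h0 : Algebra.FiniteType ℚ (B ⧸ m) :=
    .of_surjective (Ideal.Quotient.mkₐ ℚ m) (Ideal.Quotient.mkₐ_surjective ℚ m)
  have h2 := finite_of_finite_type_of_isJacobsonRing ℚ (B ⧸ m)
  exact ⟨B ⧸ m, inferInstance, .of_module_finite ℚ _, ⟨Ideal.Quotient.mk m⟩⟩

theorem Uni1_ev {K : Type} [Field K] [CharZero K] (A : Subring K) (hA : Algebra.FiniteType ℤ A) :
    ∃ (L : Type) (_ : Field L) (_ : NumberField L), Nonempty (A →+* L) := by
  obtain ⟨s, hs⟩ := hA.out
  let B : Subalgebra ℚ K := Algebra.adjoin ℚ (A.subtype '' s)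
  have _ : Algebra.FiniteType ℚ B := .adjoin_of_finite (s.finite_toSet.image _)
  have hm : ∀ a : A, A.subtype a ∈ B := fun a => by
    have ha : a ∈ Algebra.adjoin ℤ (s : Set A) := hs ▸ Algebra.mem_top
    induction ha using Algebra.adjoin_induction with
    | mem x hx => exact Algebra.subset_adjoin ⟨x, hx, rfl⟩
    | algebraMap r => simp
    | add x y _ _ hx hy => rw [map_add]; exact add_mem hx hy
    | mul x y _ _ hx hy => rw [map_mul]; exact mul_mem hx hy
  obtain ⟨L, _, _, ⟨φ⟩⟩ := Uni1_res B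
  exact ⟨L, inferInstance, inferInstance, ⟨φ.comp (A.subtype.codRestrict B hm)⟩⟩

theorem finite_traces {G K : Type} [Group G] [Group.FG G] [Field K] [CharZero K] {n : ℕ}
    (f : G →* GL (Fin n) K) (h : ∀ g, ∃ m, 0 < m ∧ IsNilpotent ((f g).val ^ m - 1)) :
    (Set.range fun g => (f g).val.trace).Finite := by
  obtain ⟨A, f₀, hA, hf⟩ := GN.exists_fg_subring inferInstance K n f
  obtain ⟨L, _, _, ⟨ev⟩⟩ := Uni1_ev A hA
  have e : ∀ g, (f g).val = A.subtype.mapMatrix (f₀ g).val := fun g => hf g ▸ rfl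
  have h0 : ∀ g, ∃ m, 0 < m ∧ IsNilpotent ((f₀ g).val ^ m - 1) := fun g => by
    obtain ⟨m, hm, h1⟩ := h g
    refine ⟨m, hm, (IsNilpotent.map_iff (f := A.subtype.mapMatrix)
      (Matrix.map_injective A.subtype_injective)).1 ?_⟩
    rwa [map_sub, map_pow, map_one, ← e]
  have hi : ∀ g, IsIntegral ℤ (f₀ g).val.trace := fun g => by
    obtain ⟨m, hm, h1⟩ := h0 g
    exact Uni1_int ((algebraMap K (AlgebraicClosure K)).comp A.subtype)
      ((algebraMap K _).injective.comp A.subtype_injective) hm h1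
  have hfin : (Set.range fun g => (f₀ g).val.trace).Finite := by
    refine Set.Finite.of_finite_image (f := ev)
      ((NumberField.Embeddings.finite_of_norm_le L ℂ n).subset ?_) ?_
    · rintro _ ⟨_, ⟨g, rfl⟩, rfl⟩
      obtain ⟨m, hm, h1⟩ := h0 g
      exact ⟨(hi g).map ev.toIntAlgHom, fun φ => Uni1_norm (φ.comp ev) hm h1⟩
    · rintro _ ⟨g, rfl⟩ _ ⟨g', rfl⟩ h1
      by_contra h2
      obtain ⟨r, h3, c, h4⟩ := ((hi g).sub (hi g')).isAlgebraic.exists_nonzero_dvd
        (mem_nonZeroDivisors_of_ne_zero (sub_ne_zero.2 h2))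
      have h5 := congrArg ev h4
      rw [map_mul, map_sub, sub_eq_zero.2 h1, zero_mul, eq_intCast, map_intCast] at h5
      exact h3 (Int.cast_eq_zero.1 h5)
  refine (hfin.image A.subtype).subset ?_
  rintro _ ⟨g, rfl⟩
  exact ⟨_, ⟨g, rfl⟩, (AddMonoidHom.map_trace _ _).trans (congrArg _ (e g).symm)⟩

end Pool.Agent.MP_f7db47_al.GS
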