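import Pool.Agent.MP_f7db47_al.GS.DS
import Pool.Agent.MP_f7db47_al.GN.CAcyc

/-!
The chain complex of an invariant acyclic clique complex.
-/

namespace Pool.Agent.MP_f7db47_al.GS

section aux

variable {Γ V : Type} [Group Γ] [LinearOrder V] [MulAction Γ V] {Adj : V → V → Prop}

/-- The cliques with `j` elements. -/
abbrev CxP (Adj : V → V → Prop) (j : ℕ) (s : Finset V) : Prop :=
  (∀ x ∈ s, ∀ y ∈ s, x ≠ y → Adj x y) ∧ s.card = j

/-- The action on finite sets. -/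
def CxM (g : Γ) (s : Finset V) : Finset V := s.map (MulAction.toPerm g).toEmbedding

omit [LinearOrder V] in
theorem CxM_mem {g : Γ} {s : Finset V} {x : V} : x ∈ CxM g s ↔ ∃ y ∈ s, g • y = x :=
  Finset.mem_map

/-- The action on cliques. -/
@[reducible] def CxAct (hi : ∀ (g : Γ) x y, Adj x y → Adj (g • x) (g • y)) (j : ℕ) :
    MulAction Γ {s // CxP Adj j s} where
  smul g s := ⟨CxM g s.1, fun x hx y hy hxy => by
    obtain ⟨a, ha, rfl⟩ := CxM_mem.1 hx
    obtain ⟨b, hb, rfl⟩ := CxM_mem.1 hy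
    exact hi g a b (s.2.1 a ha b hb fun e => hxy (congrArg _ e)),
    (Finset.card_map _).trans s.2.2⟩
  one_smul s := Subtype.ext (Finset.ext fun x => CxM_mem.trans (by simp))
  mul_smul g h s := Subtype.ext (Finset.ext fun x => CxM_mem.trans (Iff.trans ⟨
    fun ⟨y, hy, e⟩ => ⟨h • y, CxM_mem.2 ⟨y, hy, rfl⟩, (mul_smul g h y).symm.trans e⟩,
    fun ⟨_, hz, e⟩ => by
      obtain ⟨y, hy, rfl⟩ := CxM_mem.1 hz
      exact ⟨y, hy, (mul_smul g h y).trans e⟩⟩ CxM_mem.symm))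

theorem Cx_sub {α : Type} {p : α → Prop} {c : α →₀ ℤ} (h : ∀ a, c a ≠ 0 → p a) :
    (c.subtypeDomain p).mapDomain Subtype.val = c := by
  ext a
  by_cases ha : p a
  · exact Finsupp.mapDomain_apply Subtype.val_injective _ ⟨a, ha⟩
  · rw [Finsupp.mapDomain_notin_range _ _ (by simpa using ha)]
    exact (not_not.1 (mt (h a) ha)).symm

/-- The boundary of a clique. -/
noncomputable def CxD (Adj : V → V → Prop) (j : ℕ) (y : {s // CxP Adj (j + 1) s}) :
    {s // CxP Adj j s} →₀ ℤ := (GN.bd1 y.1).subtypeDomain _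

theorem CxD_val (j : ℕ) (y : {s // CxP Adj (j + 1) s}) :
    (CxD Adj j y).mapDomain Subtype.val = GN.bd1 y.1 := by
  refine Cx_sub fun τ hτ => ?_
  rw [GN.CAcyc_bd1, Finsupp.finsetSum_apply] at hτ
  obtain ⟨v, hv, h3⟩ := Finset.exists_ne_zero_of_sum_ne_zero hτ
  obtain rfl := (Finsupp.single_apply_ne_zero.1 h3).1
  exact ⟨fun a ha b hb => y.2.1 a (Finset.mem_of_mem_erase ha) b (Finset.mem_of_mem_erase hb),
    by rw [Finset.card_erase_of_mem hv, y.2.2, Nat.add_sub_cancel]⟩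

theorem CxD_lc (j : ℕ) (c : {s // CxP Adj (j + 1) s} →₀ ℤ) :
    (Finsupp.linearCombination ℤ (CxD Adj j) c).mapDomain Subtype.val =
      GN.bd (c.mapDomain Subtype.val) := by
  induction c using Finsupp.induction_linear with
  | zero => simp
  | add a b ha hb => simp only [map_add, Finsupp.mapDomain_add, ha, hb]
  | single σ a =>
    rw [Finsupp.linearCombination_single, Finsupp.mapDomain_smul, CxD_val,
      Finsupp.mapDomain_single, GN.bd, GN.CAcyc_lin]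

theorem Cx_ex (ha : ∀ s : Finset V, ∃ B, s ⊆ B ∧ GN.Acyc Adj B) (j : ℕ)
    (c : {s // CxP Adj j s} →₀ ℤ) (h : GN.bd (c.mapDomain Subtype.val) = 0) :
    ∃ c', Finsupp.linearCombination ℤ (CxD Adj j) c' = c := by
  obtain ⟨B, hB, hA⟩ := ha (c.support.biUnion Subtype.val)
  obtain ⟨c', h1, h2⟩ := hA j _ (fun σ hσ => by
    by_cases h3 : σ ∈ Set.range (Subtype.val : {s // CxP Adj j s} → _)
    · obtain ⟨y, rfl⟩ := h3
      rw [Finsupp.mapDomain_apply Subtype.val_injective] at hσ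
      exact ⟨⟨(Finset.subset_biUnion_of_mem _ (Finsupp.mem_support_iff.2 hσ)).trans hB, y.2.1⟩,
        y.2.2⟩
    · exact absurd (Finsupp.mapDomain_notin_range _ _ h3) hσ) h
  refine ⟨c'.subtypeDomain _, Finsupp.mapDomain_injective Subtype.val_injective ?_⟩
  rw [CxD_lc, Cx_sub fun σ hσ => ⟨(h1 σ hσ).1.2, (h1 σ hσ).2⟩, h2]

theorem Cx_lt (ho : ∀ (g : Γ) x y, Adj x y → x < y → g • x < g • y) {s : Finset V}
    (hs : ∀ x ∈ s, ∀ y ∈ s, x ≠ y → Adj x y) (g : Γ) {x y : V} (hx : x ∈ s) (hy : y ∈ s) :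
    g • x < g • y ↔ x < y := by
  refine ⟨fun h => ?_, fun h => ho g x y (hs x hx y hy h.ne) h⟩
  rcases lt_trichotomy x y with h' | rfl | h'
  · exact h'
  · exact absurd h (lt_irrefl _)
  · exact absurd h (ho g y x (hs y hy x hx h'.ne) h').not_gt

theorem Cx_bd1 (ho : ∀ (g : Γ) x y, Adj x y → x < y → g • x < g • y) {s : Finset V}
    (hs : ∀ x ∈ s, ∀ y ∈ s, x ≠ y → Adj x y) (g : Γ) :
    GN.bd1 (CxM g s) = (GN.bd1 s).mapDomain (CxM g) := by
  rw [GN.bd1, GN.bd1, Finsupp.mapDomain_finsetSum, CxM, Finset.sum_map]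
  refine Finset.sum_congr rfl fun v hv => ?_
  rw [Finsupp.mapDomain_single, CxM, Finset.map_erase, Finset.filter_map, Finset.card_map]
  congr 3
  exact Finset.filter_congr fun x hx => Cx_lt ho hs g hx hv

end aux

theorem exists_cx {Γ V : Type} [Group Γ] [LinearOrder V] [MulAction Γ V] (Adj : V → V → Prop)
    (hi : ∀ (g : Γ) x y, Adj x y → Adj (g • x) (g • y))
    (ho : ∀ (g : Γ) x y, Adj x y → x < y → g • x < g • y) (n : ℕ)
    (hn : ∀ B σ, GN.Clq Adj B σ → σ.card ≤ n)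
    (ha : ∀ s : Finset V, ∃ B, s ⊆ B ∧ GN.Acyc Adj B) :
    ∃ (Y : ℕ → Type) (_ : ∀ j, MulAction Γ (Y j)) (d : ∀ j, Y (j + 1) → (Y j →₀ ℤ)),
      Cx Γ Y d n ∧ ∀ j (y : Y (j + 1)), ∃ x : V, ∀ g : Γ, g • y = y → g • x = x := by
  letI := CxAct hi
  refine ⟨fun j => {s // CxP Adj j s}, CxAct hi, CxD Adj, ⟨⟨⟨⟨⟨∅, by simp, rfl⟩⟩, fun s =>
    Subtype.ext (Finset.card_eq_zero.1 s.2.2)⟩⟩, fun j hj => ⟨fun s =>
      (hn s.1 s.1 ⟨subset_rfl, s.2.1⟩).not_gt (s.2.2.symm ▸ hj)⟩, fun j g y => ?_, fun c => ?_,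
    fun j c => ⟨fun h => ?_, ?_⟩⟩, fun j y => ?_⟩
  · refine Finsupp.mapDomain_injective Subtype.val_injective ?_
    rw [CxD_val, ← Finsupp.mapDomain_comp]
    refine (Cx_bd1 ho y.2.1 g).trans ?_
    rw [← CxD_val, ← Finsupp.mapDomain_comp]
    rfl
  · refine Cx_ex ha 0 c ?_
    induction c using Finsupp.induction_linear with
    | zero => simp
    | add a b h1 h2 => rw [Finsupp.mapDomain_add, map_add, h1, h2, add_zero]
    | single σ a =>
      rw [Finsupp.mapDomain_single, GN.bd, GN.CAcyc_lin, Finset.card_eq_zero.1 σ.2.2, GN.bd1,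
        Finset.sum_empty, smul_zero]
  · exact Cx_ex ha _ c (by rw [← CxD_lc, h, Finsupp.mapDomain_zero])
  · rintro ⟨c', rfl⟩
    refine Finsupp.mapDomain_injective Subtype.val_injective ?_
    rw [CxD_lc, CxD_lc, GN.bd_bd, Finsupp.mapDomain_zero]
  · have hne : y.1.Nonempty := Finset.card_pos.1 (y.2.2.symm ▸ Nat.succ_pos j)
    refine ⟨y.1.min' hne, fun g hg => ?_⟩
    have h1 : CxM g y.1 = y.1 := congrArg Subtype.val hg
    have h2 := y.1.min'_mem hne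
    obtain ⟨z, hz, e⟩ := CxM_mem.1 (h1.ge h2)
    refine le_antisymm (not_lt.1 fun h => ?_) (y.1.min'_le _ (h1.le (CxM_mem.2 ⟨_, h2, rfl⟩)))
    exact ((Cx_lt ho y.2.1 g hz h2).1 (e.trans_lt h)).not_ge (y.1.min'_le _ hz)

end Pool.Agent.MP_f7db47_al.GS
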