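import Pool.Agent.MP_f7db47_al.GS.DS

/-!
Group rings are projective over the group rings of subgroups.
-/

namespace Pool.Agent.MP_f7db47_al.GS

open MonoidAlgebra

universe v

variable {R : Type v} [Ring R] {Γ S : Type} [Group Γ] [Group S]

theorem Fr_one_mul (r : R) (x : MonoidAlgebra R Γ) : single (1 : Γ) r * x = r • x := by
  induction x using MonoidAlgebra.induction_linear with
  | zero => rw [mul_zero, smul_zero]
  | add a b ha hb => rw [mul_add, smul_add, ha, hb]
  | single g s => rw [single_mul_single, one_mul, smul_single, smul_eq_mul]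

theorem Fr_rep (i : S →* Γ) (hi : Function.Injective i) : ∃ (rep : Γ → Γ) (s : Γ → S),
    (∀ g, i (s g) * rep g = g) ∧ (∀ t g, rep (i t * g) = rep g) ∧
      ∀ t g, s (i t * g) = t * s g := by
  have h1 : ∀ g, ∃ t, i t = g * (Quotient.mk (QuotientGroup.rightRel i.range) g).out⁻¹ :=
    fun g => (QuotientGroup.rightRel_apply (s := i.range)).1
      (Quotient.mk_out (s := QuotientGroup.rightRel i.range) g)
  choose s hs using h1
  have h2 : ∀ t g, (Quotient.mk (QuotientGroup.rightRel i.range) (i t * g)).out =
      (Quotient.mk (QuotientGroup.rightRel i.range) g).out := fun t g =>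
    congrArg Quotient.out (Quotient.sound (QuotientGroup.rightRel_apply.2 ⟨t⁻¹, by simp⟩))
  refine ⟨fun g => (Quotient.mk (QuotientGroup.rightRel i.range) g).out, s, fun g => ?_, h2,
    fun t g => hi ?_⟩
  · rw [hs, inv_mul_cancel_right]
  · rw [map_mul, hs, hs, h2, mul_assoc]

theorem Fr_smul (i : S →* Γ) (t : S) (a : R) (g : Γ) (r : R) :
    single t a • Res.mk (mapDomainRingHom R i) _ (single g r) =
      Res.mk (mapDomainRingHom R i) _ (single (i t * g) (a * r)) := by
  rw [Res.smul_mk, mapDomainRingHom_apply, mapDomain_single, smul_eq_mul, single_mul_single]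

theorem proj_base : Module.Projective R
    (Res (singleOneRingHom : R →+* MonoidAlgebra R Γ) (MonoidAlgebra R Γ)) :=
  haveI : Module.Projective R (MonoidAlgebra R Γ) := .of_basis (MonoidAlgebra.basis Γ R)
  Module.Projective.of_equiv' (M := MonoidAlgebra R Γ)
    { Res.mk _ _ with
      map_smul' := fun r x => congrArg (Res.mk _ _) (Fr_one_mul r x).symm }

theorem proj_grp (i : S →* Γ) (hi : Function.Injective i) :
    Module.Projective (MonoidAlgebra R S) (Res (mapDomainRingHom R i) (MonoidAlgebra R Γ)) :=
  by
  obtain ⟨rep, s, h1, h2, h3⟩ := Fr_rep i hi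
  let c : MonoidAlgebra R Γ →+ (Γ →₀ MonoidAlgebra R S) :=
    (Finsupp.liftAddHom fun g => (Finsupp.singleAddHom (rep g)).comp
      (singleAddHom (s g))).comp coeffAddEquiv.toAddMonoidHom
  have hc : ∀ g r, c (single g r) = Finsupp.single (rep g) (single (s g) r) := fun g r => by
    simp [c, coeffAddEquiv]
  let c' := c.comp (Res.mk (mapDomainRingHom R i) (MonoidAlgebra R Γ)).symm.toAddMonoidHom
  have hc' : ∀ g r, c' (Res.mk _ _ (single g r)) = Finsupp.single (rep g) (single (s g) r) := hc
  have hl : ∀ (a : MonoidAlgebra R S) x, c' (a • Res.mk _ _ x) = a • c' (Res.mk _ _ x) := by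
    intro a x
    induction a using MonoidAlgebra.induction_linear with
    | zero => rw [zero_smul, zero_smul, map_zero]
    | add a b ha hb => rw [add_smul, add_smul, map_add, ha, hb]
    | single t a =>
      induction x using MonoidAlgebra.induction_linear with
      | zero => rw [map_zero, smul_zero, map_zero, smul_zero]
      | add x y hx hy => rw [map_add, smul_add, map_add, map_add, smul_add, hx, hy]
      | single g r =>
        rw [Fr_smul, hc', hc', h2, h3, Finsupp.smul_single, smul_eq_mul, single_mul_single]
  refine Module.Projective.of_split (M := Γ →₀ MonoidAlgebra R S)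
    { c' with map_smul' := hl }
    (Finsupp.linearCombination _ fun g => Res.mk _ _ (single g 1)) (LinearMap.ext fun x => ?_)
  obtain ⟨x, rfl⟩ := (Res.mk _ _).surjective x
  change Finsupp.linearCombination _ _ (c' (Res.mk _ _ x)) = Res.mk _ _ x
  induction x using MonoidAlgebra.induction_linear with
  | zero => rw [map_zero, map_zero, map_zero]
  | add x y hx hy => rw [map_add, map_add, map_add, hx, hy]
  | single g r => rw [hc', Finsupp.linearCombination_single, Fr_smul, h1, mul_one]

theorem finite_grp (U : Subgroup Γ) [U.FiniteIndex] : Module.Finite (MonoidAlgebra R U)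
    (Res (mapDomainRingHom R U.subtype) (MonoidAlgebra R Γ)) :=
  by
  refine Module.Finite.of_surjective (Finsupp.linearCombination (MonoidAlgebra R U)
    fun q : Γ ⧸ U => Res.mk (mapDomainRingHom R U.subtype) _ (single q.out⁻¹ 1))
    (LinearMap.range_eq_top.1 (eq_top_iff.2 fun x _ => ?_))
  obtain ⟨x, rfl⟩ := (Res.mk _ _).surjective x
  induction x using MonoidAlgebra.induction_linear with
  | zero => rw [map_zero]; exact zero_mem _
  | add x y hx hy => rw [map_add]; exact add_mem (hx trivial) (hy trivial)
  | single g r =>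
    obtain ⟨u, hu⟩ := QuotientGroup.mk_out_eq_mul U g⁻¹
    refine ⟨Finsupp.single (g⁻¹ : Γ) (single u r), ?_⟩
    rw [Finsupp.linearCombination_single, Fr_smul, hu, mul_one]
    simp

theorem finite_res {A L : Type v} [Ring A] [Ring L] (φ : A →+* L)
    (hφ : Module.Finite A (Res φ L)) (M : Type v) [AddCommGroup M] [Module L M]
    [Module.Finite L M] : Module.Finite A (Res φ M) :=
  letI : Module A L := Module.compHom L φ
  letI : Module A M := Module.compHom M φ
  haveI : IsScalarTower A L M := ⟨fun a l m => mul_smul (φ a) l m⟩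
  haveI : Module.Finite A L := hφ
  Module.Finite.trans L M

theorem noeth_of_res {A L : Type v} [Ring A] [Ring L] (φ : A →+* L) [IsNoetherianRing A]
    (hφ : Module.Finite A (Res φ L)) : IsNoetherianRing L :=
  letI : Module A L := Module.compHom L φ
  haveI : IsScalarTower A L L := ⟨fun a l m => mul_assoc (φ a) l m⟩
  haveI : Module.Finite A L := hφ
  isNoetherian_of_tower A (isNoetherian_of_isNoetherianRing_of_finite A L)

end Pool.Agent.MP_f7db47_al.GS
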