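import Pool.Agent.MP_f7db47_al.GN.CAcyc

/-!
The action on the Kuhn triangulation that is coinduced from a character.
-/

namespace Pool.Agent.MP_f7db47_al.GS

/-- One step up in the Kuhn triangulation. -/
def Kuhn_R {Q : Type} (x y : Q → ℤ) : Prop := ∀ q, x q ≤ y q ∧ y q ≤ x q + 1

theorem Kuhn_rk {Q : Type} [Fintype Q] {x y : Q → ℤ} (h : Kuhn_R x y) :
    ∑ q, x q ≤ ∑ q, y q ∧ ∑ q, y q ≤ ∑ q, x q + Fintype.card Q ∧ (∑ q, y q ≤ ∑ q, x q → x = y) := by
  have h1 := Finset.sum_le_sum (s := Finset.univ) fun q _ => (h q).1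
  refine ⟨h1, ?_, fun h2 => funext fun q => (Finset.sum_eq_sum_iff_of_le fun q _ => (h q).1).1
    (h1.antisymm h2) q (Finset.mem_univ q)⟩
  simpa [Finset.sum_add_distrib] using Finset.sum_le_sum (s := Finset.univ) fun q _ => (h q).2

section
variable {V Q : Type} [Fintype Q] (e : V ≃ (Q → ℤ))

/-- The edges of the Kuhn triangulation. -/
def Kuhn_A (x y : V) : Prop := x ≠ y ∧ (Kuhn_R (e x) (e y) ∨ Kuhn_R (e y) (e x))

theorem Kuhn_clq {B σ : Finset V} (h : GN.Clq (Kuhn_A e) B σ) : σ.card ≤ Fintype.card Q + 1 := by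
  rcases σ.eq_empty_or_nonempty with rfl | hσ
  · exact Nat.zero_le _
  obtain ⟨x₀, h0, h1⟩ := σ.exists_min_image (fun x => ∑ q, e x q) hσ
  refine (Finset.card_le_card_of_injOn (t := Finset.Icc (∑ q, e x₀ q) (∑ q, e x₀ q + Fintype.card Q))
    (fun x => ∑ q, e x q) (fun y hy => Finset.mem_coe.2 (Finset.mem_Icc.2 ⟨h1 y hy, ?_⟩))
      fun x hx y hy hxy => by_contra fun hne => ?_).trans (by rw [Int.card_Icc]; omega)
  · by_cases h2 : x₀ = y
    · subst h2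
      exact le_add_of_nonneg_right (Nat.cast_nonneg _)
    · exact (h.2 x₀ h0 y hy h2).2.elim (fun h3 => (Kuhn_rk h3).2.1)
        fun h3 => (Kuhn_rk h3).1.trans (le_add_of_nonneg_right (Nat.cast_nonneg _))
  · exact (h.2 x hx y hy hne).2.elim (fun h3 => hne (e.injective ((Kuhn_rk h3).2.2 hxy.ge)))
      fun h3 => hne (e.injective ((Kuhn_rk h3).2.2 hxy.le).symm)

theorem Kuhn_acyc [LinearOrder V] (s : Finset V) : ∃ B, s ⊆ B ∧ GN.Acyc (Kuhn_A e) B := by
  classical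
  obtain ⟨N, hN⟩ : ∃ N : ℕ, ∀ x ∈ s, ∀ q, (e x q).natAbs ≤ N :=
    ⟨s.sup fun x => Finset.univ.sup fun q => (e x q).natAbs, fun x hx q =>
      Finset.le_sup_of_le hx (Finset.le_sup (f := fun q => (e x q).natAbs) (Finset.mem_univ q))⟩
  obtain ⟨B, hB⟩ : ∃ B : Finset V, ∀ x, x ∈ B ↔ ∀ q, -(N : ℤ) ≤ e x q ∧ e x q ≤ N :=
    ⟨(Fintype.piFinset fun _ => Finset.Icc (-(N : ℤ)) N).map e.symm.toEmbedding, fun x => by simp⟩
  refine ⟨B, fun x hx => (hB x).2 fun q => by have := hN x hx q; omega,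
    GN.Dism.acyc (fun x y h => ⟨h.1.symm, h.2.symm⟩) ⟨fun x => ∑ q, e x q, e.symm fun _ => -N,
      fun z => e.symm fun q => max (e z q - 1) (-N), by simp [hB], fun z hz h0 => ?_⟩⟩
  replace hz := (hB z).1 hz
  obtain ⟨q₀, h1⟩ : ∃ q, -(N : ℤ) < e z q := by
    by_contra h
    exact h0 (e.eq_symm_apply.2 (funext fun q => (not_lt.1 fun h' => h ⟨q, h'⟩).antisymm (hz q).1))
  simp only [hB, Equiv.apply_symm_apply]
  refine ⟨Finset.sum_lt_sum (fun q _ => (hz q).1) ⟨q₀, Finset.mem_univ _, h1⟩,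
    fun q => by have := hz q; omega, Finset.sum_lt_sum (fun q _ => by have := hz q; omega)
      ⟨q₀, Finset.mem_univ _, by omega⟩, fun w hw h2 h3 => ?_⟩
  have h4 : Kuhn_R (e w) (e z) := by
    rcases h2 with rfl | ⟨-, h | h⟩
    · exact fun q => ⟨le_rfl, by omega⟩
    · exact h
    · exact (Kuhn_rk h).2.2 h3 ▸ fun q => ⟨le_rfl, by omega⟩
  refine or_iff_not_imp_left.2 fun h5 => ⟨h5, Or.inr fun q => ?_⟩
  have := h4 q
  have := hw q
  simp only [Equiv.apply_symm_apply]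
  omega

end

/-- The cocycle of the action on cosets. -/
noncomputable def Kuhn_c {Γ : Type} [Group Γ] (W : Subgroup Γ) (g : Γ) (q : Γ ⧸ W) : W :=
  ⟨q.out⁻¹ * (g * (g⁻¹ • q).out), QuotientGroup.eq.1 ((QuotientGroup.out_eq' _).trans
    ((MulAction.Quotient.coe_smul_out W g _).trans (smul_inv_smul g q)).symm)⟩

theorem exists_kuhn {Γ : Type} [Group Γ] (W : Subgroup Γ) [W.FiniteIndex]
    (χ : W →* Multiplicative ℤ) :
    ∃ (V : Type) (_ : LinearOrder V) (_ : MulAction Γ V) (Adj : V → V → Prop),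
      (∀ (g : Γ) x y, Adj x y → Adj (g • x) (g • y)) ∧
      (∀ (g : Γ) x y, Adj x y → x < y → g • x < g • y) ∧
      (∀ B σ, GN.Clq Adj B σ → σ.card ≤ W.index + 1) ∧
      (∀ s : Finset V, ∃ B, s ⊆ B ∧ GN.Acyc Adj B) ∧
      ∀ (x : V) (w : W), (w : Γ) • x = x → χ w = 1 := by
  have := Fintype.ofFinite (Γ ⧸ W)
  obtain ⟨V, o, e, he⟩ : ∃ (V : Type) (_ : LinearOrder V) (e : V ≃ (Γ ⧸ W → ℤ)),
      ∀ x y, e x ≤ e y → x ≤ y :=
    ⟨LinearExtension (Γ ⧸ W → ℤ), inferInstance, Equiv.refl _,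
      fun _ _ h => (toLinearExtension (α := Γ ⧸ W → ℤ)).monotone h⟩
  let _ : MulAction Γ V :=
    { smul := fun g x => e.symm fun q => e x (g⁻¹ • q) + (χ (Kuhn_c W g q)).toAdd
      one_smul := fun x => e.symm_apply_eq.2 (funext fun q => by
        have : Kuhn_c W 1 q = 1 := Subtype.ext (by simp [Kuhn_c])
        simp [this])
      mul_smul := fun g h x => congrArg e.symm (funext fun q => by
        have : Kuhn_c W (g * h) q = Kuhn_c W g q * Kuhn_c W h (g⁻¹ • q) :=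
          Subtype.ext (by simp [Kuhn_c, mul_smul, mul_assoc])
        refine Eq.trans ?_ (congrArg (· + _) (congrFun (e.apply_symm_apply _) _)).symm
        rw [this, map_mul, toAdd_mul, mul_inv_rev, mul_smul]
        ring) }
  have hs : ∀ (g : Γ) (x : V) q, e (g • x) q = e x (g⁻¹ • q) + (χ (Kuhn_c W g q)).toAdd :=
    fun g x => congrFun (e.apply_symm_apply _)
  have hR : ∀ (g : Γ) (x y : V), Kuhn_R (e x) (e y) → Kuhn_R (e (g • x)) (e (g • y)) :=
    fun g x y h q => by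
      have := h (g⁻¹ • q)
      rw [hs, hs]
      omega
  refine ⟨V, o, inferInstance, Kuhn_A e, fun g x y h => ⟨(MulAction.injective g).ne h.1,
    h.2.imp (hR g x y) (hR g y x)⟩, fun g x y h hlt => ?_, fun B σ h => ?_, Kuhn_acyc e,
    fun x w h => ?_⟩
  · exact h.2.elim (fun h1 => (he _ _ fun q => (hR g x y h1 q).1).lt_of_ne
      ((MulAction.injective g).ne h.1)) fun h1 => absurd (he _ _ fun q => (h1 q).1) hlt.not_ge
  · rw [Subgroup.index, Nat.card_eq_fintype_card]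
    exact Kuhn_clq e h
  · have h1 : (w : Γ)⁻¹ • ((1 : Γ) : Γ ⧸ W) = ((1 : Γ) : Γ ⧸ W) := by
      rw [MulAction.Quotient.smul_coe, QuotientGroup.eq]
      simp
    have h2 : ((1 : Γ) : Γ ⧸ W).out ∈ W := by
      simpa using QuotientGroup.eq.1 (QuotientGroup.out_eq' ((1 : Γ) : Γ ⧸ W))
    have h3 : Kuhn_c W w ((1 : Γ) : Γ ⧸ W) = ⟨_, h2⟩⁻¹ * (w * ⟨_, h2⟩) :=
      Subtype.ext (by simp [Kuhn_c, h1])
    have h4 := hs w x ((1 : Γ) : Γ ⧸ W)
    rwa [h, h1, left_eq_add, toAdd_eq_zero, h3, map_mul, map_mul, map_inv, mul_comm,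
      mul_inv_cancel_right] at h4

end Pool.Agent.MP_f7db47_al.GS
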