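import Pool.Agent.MP_f7db47_al.GS.DgB
import Pool.Agent.MP_f7db47_al.GS.Fr
import Pool.Agent.MP_f7db47_al.GS.Cx
import Pool.Agent.MP_f7db47_al.GS.Kuhn
import Pool.Agent.MP_f7db47_al.GS.Uni3
import Pool.Agent.MP_f7db47_al.PT.ZTame

/-!
Group rings of torsion-free virtually poly-`ℤ` groups over regular rings are regular.
-/

namespace Pool.Agent.MP_f7db47_al.GS

open MonoidAlgebra Function

universe v

variable {R : Type v} [Ring R]

theorem CD.mono {Γ : Type} [Group Γ] {D E : ℕ} (h : CD R Γ D) (hD : D ≤ E) : CD R Γ E :=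
  fun K _ _ hK => (h K hK).mono hD

theorem res_one {Γ S : Type} [Group Γ] [Group S] (i : S →* Γ) (K : Type v) [AddCommGroup K]
    [Module (MonoidAlgebra R Γ) K] :
    Nonempty (Res (singleOneRingHom : R →+* MonoidAlgebra R S) (Res (mapDomainRingHom R i) K) ≃ₗ[R]
      Res (singleOneRingHom : R →+* MonoidAlgebra R Γ) K) :=
  res_comp _ _ _ fun r => by simp

theorem cd_step {Γ : Type} [Group Γ] {Y : ℕ → Type} [∀ j, MulAction Γ (Y j)]
    {d : ∀ j, Y (j + 1) → (Y j →₀ ℤ)} {n : ℕ} (hC : Cx Γ Y d n) (D : ℕ)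
    (hD : ∀ j (y : Y (j + 1)), CD R (MulAction.stabilizer Γ y) D) : CD R Γ (n + D) := by
  intro K _ _ hK
  refine pd_of_res (ι := Σ j, Y (j + 1)) (fun p => MonoidAlgebra R (MulAction.stabilizer Γ p.2))
    (fun p => mapDomainRingHom R (MulAction.stabilizer Γ p.2).subtype)
    (fun p => proj_grp _ (Subgroup.subtype_injective _)) n
    (fun K _ _ h => pd_cx hC K fun j y => h ⟨j, y⟩) D fun p => hD p.1 p.2 _ ?_
  obtain ⟨e⟩ := res_one (R := R) (MulAction.stabilizer Γ p.2).subtype K
  exact Module.Projective.of_equiv e.symm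

theorem TF.sub {G H : Type} [Group G] [Group H] (h : TF G) (f : H →* G) (hf : Injective f) :
    TF H := fun _ hg => hf ((h _ (f.isOfFinOrder hg)).trans f.map_one.symm)

theorem TF.triv {G U : Type} [Group G] [Group U] (h : TF G) (W : Subgroup G) [W.FiniteIndex]
    (j : W →* U) (hj : Injective j) [Subsingleton U] : Subsingleton G := by
  have h1 : W = ⊥ := (Subgroup.eq_bot_iff_forall W).2 fun x hx =>
    congrArg Subtype.val (hj (Subsingleton.elim (j ⟨x, hx⟩) (j 1)))
  have h2 := Subgroup.FiniteIndex.index_ne_zero (H := W)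
  rw [h1, Subgroup.index_bot] at h2
  have : Finite G := Nat.finite_of_card_ne_zero h2
  exact ⟨fun a b => (h a (isOfFinOrder_of_finite a)).trans (h b (isOfFinOrder_of_finite b)).symm⟩

/-- The passage to the kernel of the first character. -/
theorem exists_ker {G U S : Type} [Group G] [Group U] [Group S] (h : U →* Multiplicative ℤ)
    (W : Subgroup G) (j : W →* U) (hj : Injective j) (i : S →* G) (hi : Injective i)
    (W' : Subgroup S) (h1 : ∀ s ∈ W', i s ∈ W) (h2 : ∀ s (hs : s ∈ W'), h (j ⟨i s, h1 s hs⟩) = 1) :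
    ∃ j' : W' →* h.ker, Injective j' :=
  ⟨(j.comp ((i.comp W'.subtype).codRestrict W fun s => h1 s s.2)).codRestrict h.ker
    fun s => h2 s s.2, fun _ _ e =>
      Subtype.ext (hi (congrArg Subtype.val (hj (congrArg Subtype.val e))))⟩

theorem cd_vp {U : Type} [Group U] (hU : PolyZ U) (m : ℕ) : ∃ D, ∀ (Γ : Type) [Group Γ], TF Γ →
    ∀ W : Subgroup Γ, W.FiniteIndex → W.index ≤ m → ∀ j : W →* U, Injective j → CD R Γ D := by
  induction hU with
  | triv U hU =>
    refine ⟨0, fun Γ _ hT W _ _ j hj K _ _ hK => pd_zero.2 (proj_of_surj _ (fun s => ?_) hK)⟩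
    have := hT.triv W j hj
    induction s using MonoidAlgebra.induction_linear with
    | zero => exact ⟨0, map_zero _⟩
    | add a b ha hb =>
      obtain ⟨a, rfl⟩ := ha
      obtain ⟨b, rfl⟩ := hb
      exact ⟨a + b, map_add _ _ _⟩
    | single g r => exact ⟨r, by rw [Subsingleton.elim g 1]; rfl⟩
  | ext U h _ ih =>
    obtain ⟨D, hD⟩ := ih
    refine ⟨m + 1 + D, fun Γ _ hT W _ hm j hj => ?_⟩
    obtain ⟨V, _, _, Adj, h1, h2, h3, h4, h5⟩ := exists_kuhn W (h.comp j)
    obtain ⟨Y, _, d, hC, hY⟩ := exists_cx Adj h1 h2 _ h3 h4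
    refine (cd_step hC D fun i y => ?_).mono (by omega)
    obtain ⟨x, hx⟩ := hY i y
    obtain ⟨j', hj'⟩ := exists_ker h W j hj (MulAction.stabilizer Γ y).subtype
      (Subgroup.subtype_injective _) (W.subgroupOf _) (fun s hs => hs)
      fun s hs => h5 x ⟨s, hs⟩ (hx s s.2)
    refine hD _ (hT.sub _ (Subgroup.subtype_injective _)) (W.subgroupOf _) inferInstance
      (le_trans ?_ hm) j' hj'
    rw [← W.relIndex_top_right]
    exact Subgroup.relIndex_le_of_le_right le_top
      (by rw [W.relIndex_top_right]; exact Subgroup.FiniteIndex.index_ne_zero)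

theorem noeth_vp (hR : RegularRing R) {L : Type} [Group L] (hV : VP L) :
    IsNoetherianRing (MonoidAlgebra R L) := by
  obtain ⟨U, _, hU⟩ := hV
  have := (PolyZ.reg hR hU).isNoetherianRing
  exact noeth_of_res (mapDomainRingHom R U.subtype) (finite_grp U)

theorem pd_vp (hR : RegularRing R) {L : Type} [Group L] (hT : TF L) (hV : VP L) (A : Type v)
    [AddCommGroup A] [Module (MonoidAlgebra R L) A] [Module.Finite (MonoidAlgebra R L) A] :
    ∃ k, PD (MonoidAlgebra R L) k A := by
  obtain ⟨U, _, hU⟩ := hV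
  have := finite_res (mapDomainRingHom R U.subtype) (finite_grp U) A
  obtain ⟨k, hk⟩ := (PolyZ.reg hR hU).fr (Res (mapDomainRingHom R U.subtype) A)
  obtain ⟨D, hD⟩ := cd_vp (R := R) hU U.index
  obtain ⟨e⟩ := res_one (R := R) U.subtype A
  have h0 : PD (MonoidAlgebra R U) k (Res (mapDomainRingHom R U.subtype) A) :=
    PT.ZTame_pd _ k _ hk
  have h1 : PD R k (Res (singleOneRingHom : R →+* MonoidAlgebra R L) A) :=
    (pd_res _ proj_base h0).of_equiv e
  exact ⟨D + k, pd_of_res (ι := Unit) (fun _ => R)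
    (fun _ => singleOneRingHom) (fun _ => proj_base) D
    (fun K _ _ h => hD L hT U inferInstance le_rfl (MonoidHom.id _) injective_id K (h ())) k
    fun _ => h1⟩

theorem regCoh_vp (hR : RegularRing R) {L : Type} [Group L] (hT : TF L) (hV : VP L) :
    RegularCoherent (MonoidAlgebra R L) := by
  intro n A hA
  have := noeth_vp hR hV
  have : Module.Finite (MonoidAlgebra R L) A := Module.Finite.iff_fg.2 hA
  obtain ⟨k, hk⟩ := pd_vp hR hT hV A
  exact ⟨Module.finitePresentation_of_finite _ _,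
    (CategoryTheory.projectiveDimension_ne_top_iff _).2 ⟨k, hk⟩⟩

theorem VP.sub {G H : Type} [Group G] [Group H] (h : VP G) (f : H →* G) (hf : Injective f) :
    VP H := by
  obtain ⟨U, _, hU⟩ := h
  refine ⟨U.comap f, ⟨?_⟩, polyZ_of_injective hU _ (f.subgroupComap U) fun a b e =>
    Subtype.ext (hf (congrArg Subtype.val e))⟩
  rw [Subgroup.index_comap]
  exact Subgroup.FiniteIndex.index_ne_zero (H := U.subgroupOf f.range)

theorem VP.prod {G P : Type} [Group G] [Group P] (h : VP G) (hP : PolyZ P) : VP (G × P) := by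
  obtain ⟨U, _, hU⟩ := h
  refine ⟨U.prod ⊤, ⟨?_⟩, polyZ_of_injective (polyZ_prod hU hP) _
    ((((MonoidHom.fst _ _).comp (U.prod ⊤).subtype).codRestrict U fun x => x.2.1).prod
      ((MonoidHom.snd _ _).comp (U.prod ⊤).subtype)) fun a b e => ?_⟩
  · rw [Subgroup.index_prod, Subgroup.index_top, mul_one]
    exact Subgroup.FiniteIndex.index_ne_zero
  · exact Subtype.ext (Prod.ext (congrArg (fun z => (z.1 : G)) e) (congrArg (fun z => z.2) e))

theorem TF.prod {G P : Type} [Group G] [Group P] (h : TF G) (hP : PolyZ P) : TF (G × P) :=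
  fun _ hg => Prod.ext (h _ ((MonoidHom.fst G P).isOfFinOrder hg))
    (PolyZ_tf hP _ ((MonoidHom.snd G P).isOfFinOrder hg))

/-- Extensions by subgroups of `ℤ` of locally virtually poly-`ℤ` groups. -/
theorem qq_line_vp (hR : RegularRing R) {G : Type} [Group G] (hT : TF G)
    (ψ : G →* Multiplicative ℤ) (hq : QQ R ψ.ker)
    (hV : ∀ M : Subgroup G, M.FG → M ≤ ψ.ker → VP M) : QQ R G := by
  obtain ⟨X, ρ, hX, hρ⟩ := PT.exists_line ψ
  let _ : MulAction G ℤ :=
    { smul := fun g n => ρ g n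
      one_smul := fun n => by change ρ 1 n = n; rw [map_one]; rfl
      mul_smul := fun a b n => by change ρ (a * b) n = ρ a (ρ b n); rw [map_mul]; rfl }
  have hs : ∀ (g : G) (n : ℤ), g • n = ρ g n := fun _ _ => rfl
  have hk : ∀ y : ℤ, MulAction.stabilizer G y ≤ ψ.ker := fun y g hg => by
    have h1 : ρ g y = y := hg
    rw [hρ] at h1
    exact toAdd_eq_zero.1 (by omega)
  refine PT.qq_tame (X := X) (F := ∅) (Z := {K | VP K})
    ⟨hX, fun g a b h => (ρ g).map_rel_iff.2 h, fun g a b h h' => ?_⟩ (fun a b _ => ?_)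
    (fun K hK P _ hP L => regCoh_vp hR
      (((hT.sub _ K.subtype_injective).prod hP).sub _ L.subtype_injective)
      ((VP.prod hK hP).sub _ L.subtype_injective))
    (fun y => hq.sub _ (Subgroup.inclusion_injective (hk y))) fun H hH => hH.elim
  · have h1 := h.ne
    rw [hs, hs, hρ, hρ] at h'
    omega
  · exact ⟨{M : Subgroup G // M.FG ∧ M ≤ MulAction.stabilizer G a ⊓ MulAction.stabilizer G b},
      fun M => M.1, fun _ _ => False, ⟨fun x => ⟨x, fun _ h => h.elim⟩⟩, fun M => M.2.2,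
      fun M h1 h2 => ⟨⟨M, h1, h2⟩, le_rfl⟩,
      fun M => Or.inl (hV M.1 M.2.1 (M.2.2.trans (inf_le_left.trans (hk a))))⟩

end Pool.Agent.MP_f7db47_al.GS
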