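import Pool.Agent.MP_f7db47_al.Defs

/-!
Projective dimension, restriction of scalars and chains with coefficients: definitions.
-/

namespace Pool.Agent.MP_f7db47_al.GS

open MonoidAlgebra

universe v

/-- The projective dimension is at most `k`. -/
def PD (L : Type v) [Ring L] (k : ℕ) (M : Type v) [AddCommGroup M] [Module L M] : Prop :=
  CategoryTheory.HasProjectiveDimensionLT (ModuleCat.of L M) (k + 1)

/-- Restriction of scalars. -/
def Res {S L : Type v} [Ring S] [Ring L] (_φ : S →+* L) (M : Type v) : Type v := M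

section Res

variable {S L : Type v} [Ring S] [Ring L] (φ : S →+* L) (M : Type v) [AddCommGroup M]

instance : AddCommGroup (Res φ M) := ‹_›

/-- The identity map to the restriction. -/
def Res.mk : M ≃+ Res φ M := AddEquiv.refl M

variable [Module L M]

instance : Module S (Res φ M) := Module.compHom M φ

theorem Res.smul_mk (s : S) (m : M) : s • Res.mk φ M m = Res.mk φ M (φ s • m) := rfl

variable {M}

/-- The restriction of a linear map. -/
def Res.map {N : Type v} [AddCommGroup N] [Module L N] (f : M →ₗ[L] N) :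
    Res φ M →ₗ[S] Res φ N where
  toFun := f
  map_add' := f.map_add
  map_smul' s m := f.map_smul (φ s) m

theorem Res.map_mk {N : Type v} [AddCommGroup N] [Module L N] (f : M →ₗ[L] N) (m : M) :
    Res.map φ f (Res.mk φ M m) = Res.mk φ N (f m) := rfl

end Res

/-- Chains on `Y` with coefficients in `K`. -/
def Dg (Y : Type) (K : Type v) [AddCommGroup K] : Type v := Y →₀ K

section Dg

variable {R : Type v} [Ring R] {Γ Y : Type} [Group Γ] [MulAction Γ Y] {K : Type v}
  [AddCommGroup K]

noncomputable instance : AddCommGroup (Dg Y K) := inferInstanceAs (AddCommGroup (Y →₀ K))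

/-- The chain concentrated at a point. -/
noncomputable def Dg.sg (y : Y) : K →+ Dg Y K := Finsupp.singleAddHom y

theorem Dg.hom_ext {A : Type*} [AddCommGroup A] {f g : Dg Y K →+ A}
    (h : ∀ y k, f (Dg.sg y k) = g (Dg.sg y k)) : f = g :=
  Finsupp.addHom_ext h

/-- The additive map with given values on the points. -/
noncomputable def Dg.lift {A : Type*} [AddCommGroup A] (f : Y → K →+ A) : Dg Y K →+ A :=
  Finsupp.liftAddHom f

theorem Dg.lift_sg {A : Type*} [AddCommGroup A] (f : Y → K →+ A) (y : Y) (k : K) :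
    Dg.lift f (Dg.sg y k) = f y k :=
  Finsupp.liftAddHom_apply_single f y k

variable [Module (MonoidAlgebra R Γ) K]

variable (Y K) in
/-- The diagonal action of a monomial. -/
noncomputable def Dg.act (g : Γ) (r : R) : Dg Y K →+ Dg Y K :=
  Dg.lift fun y => (Dg.sg (g • y)).comp (DistribSMul.toAddMonoidHom K (single g r))

theorem Dg.act_sg (g : Γ) (r : R) (y : Y) (k : K) :
    Dg.act Y K g r (Dg.sg y k) = Dg.sg (g • y) (single g r • k) :=
  Dg.lift_sg _ y k

theorem Dg.act_mul (g h : Γ) (r s : R) :
    Dg.act Y K (g * h) (r * s) = (Dg.act Y K g r).comp (Dg.act Y K h s) :=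
  Dg.hom_ext fun y k => by
    rw [AddMonoidHom.comp_apply, Dg.act_sg, Dg.act_sg, Dg.act_sg, mul_smul,
      ← mul_smul (single g r), single_mul_single]

theorem Dg.act_one : Dg.act Y K (1 : Γ) (1 : R) = AddMonoidHom.id _ :=
  Dg.hom_ext fun y k => by
    rw [Dg.act_sg, one_smul, ← one_def, one_smul]; rfl

theorem Dg.act_zero (g : Γ) : Dg.act Y K g (0 : R) = 0 :=
  Dg.hom_ext fun y k => by
    rw [Dg.act_sg, single_zero, zero_smul, map_zero]; rfl

theorem Dg.act_add (g : Γ) (r s : R) :
    Dg.act Y K g (r + s) = Dg.act Y K g r + Dg.act Y K g s :=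
  Dg.hom_ext fun y k => by
    rw [AddMonoidHom.add_apply, Dg.act_sg, Dg.act_sg, Dg.act_sg, single_add, add_smul, map_add]

variable (R Γ Y K) in
/-- The diagonal action. -/
noncomputable def Dg.rho : MonoidAlgebra R Γ →+* AddMonoid.End (Dg Y K) :=
  liftNCRingHom
    { toFun := fun r => Dg.act Y K (1 : Γ) r
      map_one' := Dg.act_one
      map_mul' := fun r s => (congrArg (Dg.act Y K · (r * s)) (mul_one 1).symm).trans
        (Dg.act_mul 1 1 r s)
      map_zero' := Dg.act_zero 1
      map_add' := Dg.act_add 1 }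
    { toFun := fun g => Dg.act Y K g (1 : R)
      map_one' := Dg.act_one
      map_mul' := fun g h => (congrArg (Dg.act Y K (g * h)) (mul_one 1).symm).trans
        (Dg.act_mul g h 1 1) }
    fun r g => by
      change (Dg.act Y K 1 r).comp (Dg.act Y K g 1) = (Dg.act Y K g 1).comp (Dg.act Y K 1 r)
      rw [← Dg.act_mul, ← Dg.act_mul, mul_one, one_mul, mul_one, one_mul]

noncomputable instance : Module (MonoidAlgebra R Γ) (Dg Y K) :=
  Module.compHom (Dg Y K) (Dg.rho R Γ Y K)

theorem Dg.smul_sg (g : Γ) (r : R) (y : Y) (k : K) :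
    single g r • Dg.sg y k = Dg.sg (g • y) (single g r • k) := by
  change Dg.rho R Γ Y K (single g r) (Dg.sg y k) = _
  rw [Dg.rho, liftNCRingHom_single]
  change ((Dg.act Y K 1 r).comp (Dg.act Y K g 1)) _ = _
  rw [← Dg.act_mul, mul_one, one_mul, Dg.act_sg]

end Dg

/-- Modules over the group ring that are projective over `R` have projective dimension at most
`D`. -/
def CD (R : Type v) [Ring R] (Γ : Type) [Group Γ] (D : ℕ) : Prop :=
  ∀ (K : Type v) [AddCommGroup K] [Module (MonoidAlgebra R Γ) K],
    Module.Projective R (Res (singleOneRingHom : R →+* MonoidAlgebra R Γ) K) →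
      PD (MonoidAlgebra R Γ) D K

/-- Torsion-free groups. -/
def TF (G : Type) [Group G] : Prop := ∀ g : G, IsOfFinOrder g → g = 1

/-- Virtually poly-`ℤ` groups. -/
def VP (G : Type) [Group G] : Prop := ∃ U : Subgroup G, U.FiniteIndex ∧ PolyZ U

/-- An equivariant resolution of length at most `n` by permutation modules. -/
structure Cx (Γ : Type) [Group Γ] (Y : ℕ → Type) [∀ j, MulAction Γ (Y j)]
    (d : ∀ j, Y (j + 1) → (Y j →₀ ℤ)) (n : ℕ) : Prop where
  pt : Nonempty (Unique (Y 0))
  fin : ∀ j, n < j → IsEmpty (Y j)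
  eqv : ∀ j (g : Γ) y, d j (g • y) = (d j y).mapDomain (g • ·)
  onto : Function.Surjective (Finsupp.linearCombination ℤ (d 0))
  exact : ∀ j, Function.Exact (Finsupp.linearCombination ℤ (d (j + 1)))
    (Finsupp.linearCombination ℤ (d j))

end Pool.Agent.MP_f7db47_al.GS
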