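import Pool.Agent.MP_f7db47_al.GS.DS

/-!
Chains with coefficients in a module that is projective over the stabilisers.
-/

namespace Pool.Agent.MP_f7db47_al.GS

open MonoidAlgebra

universe v

theorem DgA_rep {Γ Y : Type} [Group Γ] [MulAction Γ Y] :
    ∃ (rep : Y → Y) (t : Y → Γ), (∀ y, t y • rep y = y) ∧ ∀ (g : Γ) y, rep (g • y) = rep y := by
  let q : Y → Quotient (MulAction.orbitRel Γ Y) := Quotient.mk _
  have h1 : ∀ y, ∃ g : Γ, g • (q y).out = y := fun y => by
    have h2 : (MulAction.orbitRel Γ Y) y (q y).out :=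
      Quotient.exact (Quotient.out_eq (q y)).symm
    exact MulAction.mem_orbit_iff.1 (MulAction.orbitRel_apply.1 h2)
  choose t ht using h1
  refine ⟨fun y => (q y).out, t, ht, fun g y => ?_⟩
  have h3 : q (g • y) = q y :=
    Quotient.sound (MulAction.orbitRel_apply.2 (MulAction.mem_orbit y g))
  simp only [h3]

theorem DgA_loc {R : Type v} [Ring R] {Γ Y : Type} [Group Γ] [MulAction Γ Y] {K : Type v}
    [AddCommGroup K] [Module (MonoidAlgebra R Γ) K] (y : Y)
    (h : Module.Projective (MonoidAlgebra R (MulAction.stabilizer Γ y))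
      (Res (mapDomainRingHom R (MulAction.stabilizer Γ y).subtype) K))
    {P : Type v} [AddCommGroup P] [Module (MonoidAlgebra R Γ) P]
    (p : P →ₗ[MonoidAlgebra R Γ] Dg Y K) (hp : Function.Surjective p) :
    ∃ a : K →+ P, (∀ k, p (a k) = Dg.sg y k) ∧
      ∀ (s : Γ) (r : R) (k : K), s • y = y → a (single s r • k) = single s r • a k := by
  let φ := mapDomainRingHom R (MulAction.stabilizer Γ y).subtype
  have hφ : ∀ (s : MulAction.stabilizer Γ y) (r : R), φ (single s r) = single (s : Γ) r :=
    fun s r => mapDomain_single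
  let f : Res φ K →ₗ[MonoidAlgebra R (MulAction.stabilizer Γ y)] Res φ (Dg Y K) :=
    { toFun := fun k => Dg.sg y (show K from k)
      map_add' := fun a b => (Dg.sg y).map_add a b
      map_smul' := fun s k => by
        change Dg.sg y (φ s • (show K from k)) = φ s • Dg.sg y (show K from k)
        induction s using MonoidAlgebra.induction_linear with
        | zero => rw [map_zero, zero_smul, zero_smul, map_zero]
        | add a b ha hb => rw [map_add, add_smul, add_smul, map_add, ha, hb]
        | single s r => rw [hφ, Dg.smul_sg, s.2] }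
  obtain ⟨a, ha⟩ := Module.projective_lifting_property (Res.map φ p) f hp
  refine ⟨a.toAddMonoidHom, fun k => LinearMap.congr_fun ha k, fun s r k hs => ?_⟩
  have h1 := a.map_smul (single (⟨s, hs⟩ : MulAction.stabilizer Γ y) r) k
  rw [← hφ ⟨s, hs⟩ r]
  exact h1

theorem proj_dg {R : Type v} [Ring R] {Γ Y : Type} [Group Γ] [MulAction Γ Y] {K : Type v}
    [AddCommGroup K] [Module (MonoidAlgebra R Γ) K]
    (h : ∀ y : Y, Module.Projective (MonoidAlgebra R (MulAction.stabilizer Γ y))
      (Res (mapDomainRingHom R (MulAction.stabilizer Γ y).subtype) K)) :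
    Module.Projective (MonoidAlgebra R Γ) (Dg Y K) := by
  refine Module.Projective.of_lifting_property'' fun p hp => ?_
  obtain ⟨rep, t, ht, hrep⟩ := DgA_rep (Γ := Γ) (Y := Y)
  choose a ha hs using fun y => DgA_loc y (h y) p hp
  let σ : Dg Y K →+ (Dg Y K →₀ MonoidAlgebra R Γ) := Dg.lift fun y =>
    (DistribSMul.toAddMonoidHom _ (single (t y) (1 : R))).comp
      ((a (rep y)).comp (DistribSMul.toAddMonoidHom K (single (t y)⁻¹ (1 : R))))
  have hσ : ∀ y k, σ (Dg.sg y k) =
      single (t y) (1 : R) • a (rep y) (single (t y)⁻¹ (1 : R) • k) := fun y k =>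
    Dg.lift_sg _ y k
  have hlin : ∀ (g : Γ) (r : R) y k, σ (single g r • Dg.sg y k) = single g r • σ (Dg.sg y k) := by
    intro g r y k
    have h1 : ((t (g • y))⁻¹ * g * t y) • rep y = rep y := by
      rw [mul_smul, mul_smul, ht, inv_smul_eq_iff, ← hrep g y, ht]
    have h2 : single (t (g • y))⁻¹ (1 : R) • single g r • k =
        single ((t (g • y))⁻¹ * g * t y) r • single (t y)⁻¹ (1 : R) • k := by
      rw [← mul_smul, ← mul_smul, single_mul_single, single_mul_single, one_mul, mul_one,
        mul_inv_cancel_right]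
    rw [Dg.smul_sg, hσ, hσ, hrep, h2, hs _ _ _ _ h1, ← mul_smul, ← mul_smul, single_mul_single,
      single_mul_single, one_mul, mul_one, mul_assoc, mul_inv_cancel_left]
  have hlin' : ∀ (c : MonoidAlgebra R Γ) x, σ (c • x) = c • σ x := by
    intro c x
    induction c using MonoidAlgebra.induction_linear with
    | zero => rw [zero_smul, zero_smul, map_zero]
    | add b c hb hc => rw [add_smul, add_smul, map_add, hb, hc]
    | single g r =>
      exact DFunLike.congr_fun (Dg.hom_ext
        (f := σ.comp (DistribSMul.toAddMonoidHom _ (single g r)))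
        (g := (DistribSMul.toAddMonoidHom _ (single g r)).comp σ) (hlin g r)) x
  refine ⟨⟨⟨σ, σ.map_add⟩, hlin'⟩, LinearMap.ext fun x => ?_⟩
  refine DFunLike.congr_fun (Dg.hom_ext (f := p.toAddMonoidHom.comp σ)
    (g := AddMonoidHom.id _) fun y k => ?_) x
  change p (σ (Dg.sg y k)) = Dg.sg y k
  rw [hσ, map_smul, ha, Dg.smul_sg, ht, ← mul_smul, single_mul_single, mul_inv_cancel, mul_one,
    ← one_def, one_smul]

end Pool.Agent.MP_f7db47_al.GS
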