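import Pool.Agent.MP_f7db47_al.GS.PD
import Pool.Agent.MP_f7db47_al.GS.DgA

/-!
A resolution by permutation modules bounds the projective dimension.
-/

namespace Pool.Agent.MP_f7db47_al.GS

open MonoidAlgebra

universe v

/-- An integral chain times a coefficient. -/
noncomputable def DgB_tens (Y : Type) (K : Type v) [AddCommGroup K] :
    (Y →₀ ℤ) →ₗ[ℤ] (K →+ Dg Y K) :=
  Finsupp.linearCombination ℤ fun y => (Dg.sg y : K →+ Dg Y K)

theorem DgB_tens_single {Y : Type} {K : Type v} [AddCommGroup K] (y : Y) (m : ℤ) (k : K) :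
    DgB_tens Y K (Finsupp.single y m) k = m • Dg.sg y k := by
  rw [DgB_tens, Finsupp.linearCombination_single]; rfl

/-- The map on chains with coefficients induced by a map of integral chains. -/
noncomputable def DgB_T {Y Y2 : Type} (K : Type v) [AddCommGroup K] (f : Y → (Y2 →₀ ℤ)) :
    Dg Y K →+ Dg Y2 K :=
  Dg.lift fun y => DgB_tens Y2 K (f y)

theorem DgB_T_sg {Y Y2 : Type} {K : Type v} [AddCommGroup K] (f : Y → (Y2 →₀ ℤ)) (y : Y)
    (k : K) : DgB_T K f (Dg.sg y k) = DgB_tens Y2 K (f y) k :=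
  Dg.lift_sg _ y k

theorem DgB_T_tens {Y Y2 : Type} {K : Type v} [AddCommGroup K] (f : Y → (Y2 →₀ ℤ))
    (c : Y →₀ ℤ) (k : K) :
    DgB_T K f (DgB_tens Y K c k) = DgB_tens Y2 K (Finsupp.linearCombination ℤ f c) k := by
  induction c using Finsupp.induction_linear with
  | zero => simp
  | add a b ha hb => simp only [map_add, AddMonoidHom.add_apply, ha, hb]
  | single y m =>
    rw [DgB_tens_single, map_zsmul, DgB_T_sg, Finsupp.linearCombination_single, map_smul]
    rfl

theorem DgB_smul_tens {R : Type v} [Ring R] {Γ Y : Type} [Group Γ] [MulAction Γ Y] {K : Type v}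
    [AddCommGroup K] [Module (MonoidAlgebra R Γ) K] (g : Γ) (r : R) (c : Y →₀ ℤ) (k : K) :
    single g r • DgB_tens Y K c k =
      DgB_tens Y K (c.mapDomain (g • ·)) (single g r • k) := by
  induction c using Finsupp.induction_linear with
  | zero => simp
  | add a b ha hb =>
    simp only [Finsupp.mapDomain_add, map_add, AddMonoidHom.add_apply, smul_add, ha, hb]
  | single y m =>
    rw [Finsupp.mapDomain_single, DgB_tens_single, DgB_tens_single, smul_comm, Dg.smul_sg]

theorem DgB_lin {R : Type v} [Ring R] {Γ : Type} [Group Γ] {A B : Type v} [AddCommGroup A]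
    [AddCommGroup B] [Module (MonoidAlgebra R Γ) A] [Module (MonoidAlgebra R Γ) B] (f : A →+ B)
    (h : ∀ (g : Γ) (r : R) x, f (single g r • x) = single g r • f x)
    (a : MonoidAlgebra R Γ) (x : A) : f (a • x) = a • f x := by
  induction a using MonoidAlgebra.induction_linear with
  | zero => simp
  | add a b ha hb => simp only [add_smul, map_add, ha, hb]
  | single g r => exact h g r x

theorem DgB_T_smul {R : Type v} [Ring R] {Γ Y Y2 : Type} [Group Γ] [MulAction Γ Y]
    [MulAction Γ Y2] {K : Type v} [AddCommGroup K] [Module (MonoidAlgebra R Γ) K]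
    (f : Y → (Y2 →₀ ℤ)) (hf : ∀ (g : Γ) y, f (g • y) = (f y).mapDomain (g • ·))
    (a : MonoidAlgebra R Γ) (x : Dg Y K) : DgB_T K f (a • x) = a • DgB_T K f x := by
  refine DgB_lin _ (fun g r x => ?_) a x
  have := Dg.hom_ext (f := (DgB_T K f).comp (DistribSMul.toAddMonoidHom _ (single g r)))
    (g := (DistribSMul.toAddMonoidHom _ (single g r)).comp (DgB_T K f)) fun y k => by
      simp only [AddMonoidHom.comp_apply, DistribSMul.toAddMonoidHom_apply]
      rw [Dg.smul_sg, DgB_T_sg, DgB_T_sg, DgB_smul_tens, hf]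
  exact DFunLike.congr_fun this x

theorem DgB_step {Γ : Type} [Group Γ] {Y : ℕ → Type} [∀ j, MulAction Γ (Y j)]
    {d : ∀ j, Y (j + 1) → (Y j →₀ ℤ)} {n : ℕ} (hC : Cx Γ Y d n) (j : ℕ)
    (h : Y j → (Y (j + 1) →₀ ℤ))
    (hh : ∀ y, Finsupp.linearCombination ℤ (d j) (Finsupp.linearCombination ℤ h (d j y)) =
      d j y) :
    ∃ h' : Y (j + 1) → (Y (j + 2) →₀ ℤ), ∀ y, Finsupp.linearCombination ℤ (d (j + 1)) (h' y) =
      Finsupp.single y 1 - Finsupp.linearCombination ℤ h (d j y) := by
  have : ∀ y : Y (j + 1), ∃ c, Finsupp.linearCombination ℤ (d (j + 1)) c =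
      Finsupp.single y 1 - Finsupp.linearCombination ℤ h (d j y) := fun y =>
    ((hC.exact j) _).1 (by rw [map_sub, hh, Finsupp.linearCombination_single, one_smul, sub_self])
  choose h' hh' using this
  exact ⟨h', hh'⟩

theorem DgB_htpy {Γ : Type} [Group Γ] {Y : ℕ → Type} [∀ j, MulAction Γ (Y j)]
    {d : ∀ j, Y (j + 1) → (Y j →₀ ℤ)} {n : ℕ} (hC : Cx Γ Y d n) (j : ℕ) :
    ∃ h : Y j → (Y (j + 1) →₀ ℤ), ∀ y,
      Finsupp.linearCombination ℤ (d j) (Finsupp.linearCombination ℤ h (d j y)) = d j y := by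
  induction j with
  | zero =>
    choose h hh using fun y : Y 0 => hC.onto (Finsupp.single y 1)
    refine ⟨h, fun y => ?_⟩
    have : (Finsupp.linearCombination ℤ (d 0)).comp (Finsupp.linearCombination ℤ h) =
        LinearMap.id := Finsupp.lhom_ext' fun y => LinearMap.ext_ring (by simp [hh])
    exact LinearMap.congr_fun this _
  | succ j ih =>
    obtain ⟨h, hh⟩ := ih
    obtain ⟨h', hh'⟩ := DgB_step hC j h hh
    refine ⟨h', fun y => ?_⟩
    have : (Finsupp.linearCombination ℤ (d (j + 1))).comp (Finsupp.linearCombination ℤ h') =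
        LinearMap.id - (Finsupp.linearCombination ℤ h).comp (Finsupp.linearCombination ℤ (d j)) :=
      Finsupp.lhom_ext' fun y => LinearMap.ext_ring (by simp [hh'])
    have h1 := LinearMap.congr_fun this (d (j + 1) y)
    have h2 := (hC.exact j).apply_apply_eq_zero (Finsupp.single y 1)
    rw [Finsupp.linearCombination_single, one_smul] at h2
    simpa [h2] using h1

theorem pd_cx {R : Type v} [Ring R] {Γ : Type} [Group Γ] {Y : ℕ → Type} [∀ j, MulAction Γ (Y j)]
    {d : ∀ j, Y (j + 1) → (Y j →₀ ℤ)} {n : ℕ} (hC : Cx Γ Y d n) (K : Type v) [AddCommGroup K]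
    [Module (MonoidAlgebra R Γ) K]
    (h : ∀ j (y : Y (j + 1)), Module.Projective (MonoidAlgebra R (MulAction.stabilizer Γ y))
      (Res (mapDomainRingHom R (MulAction.stabilizer Γ y).subtype) K)) :
    PD (MonoidAlgebra R Γ) n K := by
  obtain ⟨u⟩ := hC.pt
  let D : ∀ j, Dg (Y (j + 1)) K →ₗ[MonoidAlgebra R Γ] Dg (Y j) K := fun j =>
    { toFun := DgB_T K (d j)
      map_add' := map_add _
      map_smul' := DgB_T_smul (d j) (hC.eqv j) }
  have hD : ∀ j x, D j x = DgB_T K (d j) x := fun _ _ => rfl
  have h0 : Function.Surjective (D 0) := by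
    choose s hs using fun y : Y 0 => hC.onto (Finsupp.single y 1)
    have := Dg.hom_ext (f := (DgB_T K (d 0)).comp (DgB_T K s)) (g := AddMonoidHom.id _)
      fun y k => by
        rw [AddMonoidHom.comp_apply, DgB_T_sg, DgB_T_tens, hs, DgB_tens_single, one_smul]; rfl
    exact fun x => ⟨DgB_T K s x, DFunLike.congr_fun this x⟩
  have he : ∀ j, Function.Exact (D (j + 1)) (D j) := by
    intro j
    obtain ⟨s, hs⟩ := DgB_htpy hC j
    obtain ⟨s', hs'⟩ := DgB_step hC j s hs
    have h1 := Dg.hom_ext (f := (DgB_T K (d (j + 1))).comp (DgB_T K s'))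
      (g := AddMonoidHom.id _ - (DgB_T K s).comp (DgB_T K (d j))) fun y k => by
        rw [AddMonoidHom.comp_apply, DgB_T_sg, DgB_T_tens, hs', map_sub, AddMonoidHom.sub_apply,
          AddMonoidHom.sub_apply, DgB_tens_single, one_smul, AddMonoidHom.comp_apply, DgB_T_sg,
          DgB_T_tens]
        rfl
    have h2 := Dg.hom_ext (f := (DgB_T K (d j)).comp (DgB_T K (d (j + 1)))) (g := 0)
      fun y k => by
        have h2 := (hC.exact j).apply_apply_eq_zero (Finsupp.single y 1)
        rw [Finsupp.linearCombination_single, one_smul] at h2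
        rw [AddMonoidHom.comp_apply, DgB_T_sg, DgB_T_tens, h2, map_zero]
        rfl
    intro x
    constructor
    · intro hx
      refine ⟨DgB_T K s' x, ?_⟩
      have := DFunLike.congr_fun h1 x
      rw [hD] at hx
      rw [AddMonoidHom.sub_apply, AddMonoidHom.comp_apply, AddMonoidHom.comp_apply, hx, map_zero,
        sub_zero] at this
      exact this
    · rintro ⟨z, rfl⟩
      exact DFunLike.congr_fun h2 z
  have hP := pd_seq (L := MonoidAlgebra R Γ) (fun j => Dg (Y j) K) D h0 he
    (fun j => proj_dg (h j)) n fun j hj => by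
      have := hC.fin j hj
      exact inferInstanceAs (Subsingleton (Y j →₀ K))
  let e : Dg (Y 0) K →+ K := Dg.lift fun _ => AddMonoidHom.id K
  have he' : ∀ y k, e (Dg.sg y k) = k := fun y k => Dg.lift_sg _ y k
  refine hP.of_equiv
    { toFun := e
      map_add' := map_add _
      map_smul' := DgB_lin e fun g r x => ?_
      invFun := Dg.sg default
      left_inv := fun x => ?_
      right_inv := fun k => he' _ k }
  · have := Dg.hom_ext (f := e.comp (DistribSMul.toAddMonoidHom _ (single g r)))
      (g := (DistribSMul.toAddMonoidHom _ (single g r)).comp e) fun y k => by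
        simp only [AddMonoidHom.comp_apply, DistribSMul.toAddMonoidHom_apply]
        rw [Dg.smul_sg, he', he']
    exact DFunLike.congr_fun this x
  · have := Dg.hom_ext (f := (Dg.sg (default : Y 0)).comp e) (g := AddMonoidHom.id _)
      fun y k => by
        rw [AddMonoidHom.comp_apply, he', Subsingleton.elim default y]; rfl
    exact DFunLike.congr_fun this x

end Pool.Agent.MP_f7db47_al.GS
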