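import Mathlib

/-!
The monomial representation induced from a character.
-/

namespace Pool.Agent.MP_f7db47_al.GS

open Polynomial in
theorem Mono_alg {F K Q : Type} [Field F] [Field K] [Algebra F K] [CharZero K] [Fintype Q] {t : K}
    (ht : Transcendental F t) (a : Q → ℤ) (h : IsAlgebraic F (∑ q, t ^ a q)) (q₀ : Q) :
    a q₀ = 0 := by
  classical
  by_contra h0
  have t0 : t ≠ 0 := fun e => ht (e ▸ isAlgebraic_zero)
  obtain ⟨b, hb⟩ : ∃ b : ℕ, ∀ q, 0 ≤ a q + b := ⟨∑ q, (a q).natAbs, fun q => by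
    have := Finset.single_le_sum (f := fun q => (a q).natAbs) (fun _ _ => Nat.zero_le _)
      (Finset.mem_univ q)
    omega⟩
  choose e he using fun q => Int.eq_ofNat_of_zero_le (hb q)
  let y : algebraicClosure F K := ⟨_, mem_algebraicClosure_iff.2 h⟩
  refine ht (IsAlgebraic.restrictScalars (S := algebraicClosure F K) F
    ⟨∑ q, X ^ e q - C y * X ^ b, fun hP => ?_, ?_⟩)
  · have h1 := congrArg (coeff · (e q₀)) hP
    have h2 : e q₀ ≠ b := fun h => h0 (by have := he q₀; omega)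
    simp only [coeff_sub, finsetSum_coeff, coeff_C_mul, coeff_X_pow, if_neg h2, mul_zero, sub_zero,
      Finset.sum_boole, coeff_zero, Nat.cast_eq_zero, Finset.card_eq_zero] at h1
    exact Finset.filter_eq_empty_iff.1 h1 (Finset.mem_univ q₀) rfl
  · simp only [map_sub, map_sum, map_mul, map_pow, aeval_X, aeval_C]
    rw [sub_eq_zero]
    refine Eq.trans (Finset.sum_congr rfl fun q _ => ?_) (Finset.sum_mul ..).symm
    rw [← zpow_natCast, ← he, zpow_add₀ t0, zpow_natCast]

/-- The cocycle of the action on cosets. -/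
noncomputable def Mono_c {G : Type} [Group G] (U : Subgroup G) (g : G) (q : G ⧸ U) : U :=
  ⟨(g • q).out⁻¹ * (g * q.out), QuotientGroup.eq.1
    ((QuotientGroup.out_eq' _).trans (MulAction.Quotient.coe_smul_out U g q).symm)⟩

open Classical in
/-- The monomial matrices. -/
noncomputable def Mono_F {G K : Type} [Group G] [Field K] (U : Subgroup G) [Fintype (G ⧸ U)]
    (τ : U →* K) : G →* Matrix (G ⧸ U) (G ⧸ U) K where
  toFun g := Matrix.of fun p q => if p = g • q then τ (Mono_c U g q) else 0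
  map_one' := by
    ext p q
    have : Mono_c U 1 q = 1 := Subtype.ext (by simp [Mono_c])
    simp [this, Matrix.one_apply]
  map_mul' g h := by
    ext p q
    have : Mono_c U (g * h) q = Mono_c U g (h • q) * Mono_c U h q :=
      Subtype.ext (by simp [Mono_c, mul_smul, mul_assoc])
    simp [this, Matrix.mul_apply, mul_smul]

theorem exists_mono {G : Type} [Group G] (U : Subgroup G) [U.FiniteIndex]
    (χ : U →* Multiplicative ℤ) :
    ∃ (K : Type) (_ : Field K) (_ : CharZero K) (n : ℕ) (f : G →* GL (Fin n) K),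
      ∀ (g : G) (hg : g ∈ U.normalCore), IsAlgebraic ℤ (f g).val.trace →
        χ ⟨g, U.normalCore_le hg⟩ = 1 :=
  by
  classical
  have := Fintype.ofFinite (G ⧸ U)
  obtain ⟨t, ht⟩ : ∃ t : ℝ, Transcendental ℚ t := ⟨_, fun h =>
    transcendental_liouvilleNumber le_rfl ((IsFractionRing.isAlgebraic_iff ℤ ℚ ℝ).2 h)⟩
  have t0 : t ≠ 0 := fun e => ht (e ▸ isAlgebraic_zero)
  let τ : U →* ℝ := (Units.coeHom _).comp ((zpowersHom _ (Units.mk0 t t0)).comp χ)
  refine ⟨ℝ, inferInstance, inferInstance, Fintype.card (G ⧸ U),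
    ((Matrix.reindexAlgEquiv ℝ ℝ (Fintype.equivFin _)).toMonoidHom.comp
      (Mono_F U τ)).toHomUnits, fun g hg h => ?_⟩
  have h1 : ∀ q : G ⧸ U, g • q = q := fun q =>
    congrArg (fun σ : Equiv.Perm (G ⧸ U) => σ q) (MonoidHom.mem_ker.1 (U.normalCore_eq_ker ▸ hg))
  have h2 : (Matrix.reindex (Fintype.equivFin _) (Fintype.equivFin _) (Mono_F U τ g)).trace =
      ∑ q, t ^ (χ (Mono_c U g q)).toAdd := by
    rw [← (Fintype.equivFin (G ⧸ U)).symm.sum_comp]
    exact Finset.sum_congr rfl fun i _ => by simp [Mono_F, h1, τ]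
  have h3 := Mono_alg ht _ (h2 ▸ (IsFractionRing.isAlgebraic_iff ℤ ℚ ℝ).1 h :)
    ((1 : G) : G ⧸ U)
  have h4 : ((1 : G) : G ⧸ U).out ∈ U := by
    simpa using QuotientGroup.eq.1 (QuotientGroup.out_eq' ((1 : G) : G ⧸ U))
  have h5 : Mono_c U g ((1 : G) : G ⧸ U) = ⟨_, h4⟩⁻¹ * (⟨g, U.normalCore_le hg⟩ * ⟨_, h4⟩) :=
    Subtype.ext (by simp [Mono_c, h1])
  rw [toAdd_eq_zero, h5, map_mul, map_mul, map_inv] at h3
  rwa [mul_comm, mul_inv_cancel_right] at h3

end Pool.Agent.MP_f7db47_al.GS
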