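import Pool.Agent.MP_f7db47_al.GS.DS

/-!
Projective dimension: dimension shifting and restriction of scalars.
-/

namespace Pool.Agent.MP_f7db47_al.GS

open Function

universe v

variable {S L : Type v} [Ring S] [Ring L] {M N : Type v} [AddCommGroup M] [Module L M]
  [AddCommGroup N] [Module L N]

theorem PD_equiv {n : ℕ} (h : PD L n M) (e : M ≃ₗ[L] N) : PD L n N := by
  unfold PD at h ⊢
  exact CategoryTheory.hasProjectiveDimensionLT_of_iso e.toModuleIso (n + 1)

theorem PD_ker (p : (M →₀ L) →ₗ[L] M) :
    Exact (LinearMap.ker p).subtype p := fun x => by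
  simp

/-- Multiplication of a fixed element, as a map of restricted modules. -/
def PD_mul (φ : S →+* L) (m : M) : Res φ L →ₗ[S] Res φ M :=
  Res.map φ (LinearMap.toSpanSingleton L M m)

theorem pd_zero : PD L 0 M ↔ Module.Projective L M :=
  (CategoryTheory.projective_iff_hasProjectiveDimensionLT_one.symm).trans
    (IsProjective.iff_projective M).symm

theorem pd_succ {P : Type v} [AddCommGroup P] [Module L P] (i : N →ₗ[L] P) (p : P →ₗ[L] M)
    (hi : Injective i) (hp : Surjective p) (he : Exact i p) (hP : Module.Projective L P)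
    (n : ℕ) : PD L (n + 1) M ↔ PD L n N :=
  (ModuleCat.shortComplex_shortExact
    (ModuleCat.shortComplexOfCompEqZero i p he.linearMap_comp_eq_zero) he hi
      hp).hasProjectiveDimensionLT_X₃_iff n ((IsProjective.iff_projective P).1 hP)

theorem PD.mono {n m : ℕ} (h : PD L n M) (hn : n ≤ m) : PD L m M := by
  unfold PD at h ⊢
  exact CategoryTheory.hasProjectiveDimensionLT_of_ge _ (n + 1) (m + 1) (by omega)

theorem PD.of_equiv {n : ℕ} (h : PD L n M) (e : M ≃ₗ[L] N) : PD L n N :=
  PD_equiv h e

theorem pd_seq (C : ℕ → Type v) [∀ j, AddCommGroup (C j)] [∀ j, Module L (C j)]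
    (d : ∀ j, C (j + 1) →ₗ[L] C j) (h0 : Surjective (d 0)) (he : ∀ j, Exact (d (j + 1)) (d j))
    (hP : ∀ j, Module.Projective L (C (j + 1))) (n : ℕ)
    (hn : ∀ j, n < j → Subsingleton (C j)) : PD L n (C 0) := by
  have key : ∀ k i, n ≤ i + k → PD L k (LinearMap.range (d i)) := by
    intro k
    induction k with
    | zero =>
      intro i hi
      have := hn (i + 1) (by omega)
      have : Subsingleton (LinearMap.range (d i)) :=
        (d i).surjective_rangeRestrict.subsingleton
      exact pd_zero.2 inferInstance
    | succ k ih =>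
      intro i hi
      refine (pd_succ (LinearMap.range (d (i + 1))).subtype (d i).rangeRestrict
        (Submodule.injective_subtype _) (d i).surjective_rangeRestrict (fun x => ?_)
        (hP i) k).2 (ih (i + 1) (by omega))
      rw [Subtype.ext_iff]
      refine (he i x).trans ?_
      simp
  exact (key n 0 (by omega)).of_equiv
    (LinearEquiv.ofTop _ (LinearMap.range_eq_top.2 h0))

theorem proj_res (φ : S →+* L) (hφ : Module.Projective S (Res φ L))
    (h : Module.Projective L M) : Module.Projective S (Res φ M) := by
  refine Module.Projective.of_lifting_property'' fun f hf => ?_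
  choose g hg using fun m : M => Module.projective_lifting_property f (PD_mul φ m) hf
  obtain ⟨s, hs⟩ := Module.projective_def.1 h
  let G0 : (M →₀ L) →+ (Res φ M →₀ S) :=
    Finsupp.liftAddHom fun m => (g m).toAddMonoidHom.comp (Res.mk φ L).toAddMonoidHom
  have hG0 : ∀ m l, G0 (Finsupp.single m l) = g m (Res.mk φ L l) := fun m l =>
    Finsupp.liftAddHom_apply_single _ m l
  have hsm : ∀ (a : S) (x : M →₀ L), G0 (φ a • x) = a • G0 x := by
    intro a x
    induction x using Finsupp.induction_linear with
    | zero => simp
    | add x y hx hy => rw [smul_add, map_add, map_add, smul_add, hx, hy]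
    | single m l =>
      rw [Finsupp.smul_single, hG0, hG0, ← Res.smul_mk, map_smul]
  have hfG : ∀ x : M →₀ L, f (G0 x) = Res.mk φ M (Finsupp.linearCombination L id x) := by
    intro x
    induction x using Finsupp.induction_linear with
    | zero => simp
    | add x y hx hy => rw [map_add, map_add, hx, hy, map_add, map_add]
    | single m l =>
      rw [hG0, ← LinearMap.comp_apply, hg, Finsupp.linearCombination_single]
      rfl
  let G : Res φ (M →₀ L) →ₗ[S] (Res φ M →₀ S) :=
    { toFun := G0
      map_add' := G0.map_add
      map_smul' := hsm }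
  refine ⟨G.comp (Res.map φ s), LinearMap.ext fun x => ?_⟩
  exact (hfG (s x)).trans (congrArg (Res.mk φ M) (hs x))

theorem PD_res_succ (φ : S →+* L) (hφ : Module.Projective S (Res φ L)) {P : Type v}
    [AddCommGroup P] [Module L P] (i : N →ₗ[L] P) (p : P →ₗ[L] M) (hi : Injective i)
    (hp : Surjective p) (he : Exact i p) (hP : Module.Projective L P) (n : ℕ) :
    PD S (n + 1) (Res φ M) ↔ PD S n (Res φ N) :=
  pd_succ (Res.map φ i) (Res.map φ p) hi hp he (proj_res φ hφ hP) n

theorem pd_res (φ : S →+* L) (hφ : Module.Projective S (Res φ L)) {n : ℕ} (h : PD L n M) :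
    PD S n (Res φ M) := by
  induction n generalizing M with
  | zero => exact pd_zero.2 (proj_res φ hφ (pd_zero.1 h))
  | succ n ih =>
    let p : (M →₀ L) →ₗ[L] M := Finsupp.linearCombination L id
    have hp : Surjective p := Finsupp.linearCombination_surjective _ surjective_id
    have h1 := (pd_succ _ p (Submodule.injective_subtype _) hp (PD_ker p) inferInstance n).1 h
    exact (PD_res_succ φ hφ _ p (Submodule.injective_subtype _) hp (PD_ker p)
      inferInstance n).2 (ih h1)

theorem pd_of_res {ι : Type} (T : ι → Type v) [∀ i, Ring (T i)] (φ : ∀ i, T i →+* L)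
    (hφ : ∀ i, Module.Projective (T i) (Res (φ i) L)) (n : ℕ)
    (h : ∀ (K : Type v) [AddCommGroup K] [Module L K],
      (∀ i, Module.Projective (T i) (Res (φ i) K)) → PD L n K)
    (d : ℕ) (hM : ∀ i, PD (T i) d (Res (φ i) M)) : PD L (n + d) M := by
  induction d generalizing M with
  | zero => exact h M fun i => pd_zero.1 (hM i)
  | succ d ih =>
    let p : (M →₀ L) →ₗ[L] M := Finsupp.linearCombination L id
    have hp : Surjective p := Finsupp.linearCombination_surjective _ surjective_id
    refine (pd_succ _ p (Submodule.injective_subtype _) hp (PD_ker p) inferInstance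
      (n + d)).2 (ih fun i => ?_)
    exact (PD_res_succ (φ i) (hφ i) _ p (Submodule.injective_subtype _) hp (PD_ker p)
      inferInstance d).1 (hM i)

theorem proj_of_surj (φ : S →+* L) (hφ : Surjective φ) (h : Module.Projective S (Res φ M)) :
    Module.Projective L M := by
  refine Module.Projective.of_lifting_property'' fun f hf => ?_
  obtain ⟨s, hs⟩ := Module.projective_lifting_property (Res.map φ f) LinearMap.id hf
  refine ⟨{ toFun := s, map_add' := s.map_add, map_smul' := fun l x => ?_ },
    LinearMap.ext fun x => LinearMap.congr_fun hs x⟩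
  obtain ⟨a, rfl⟩ := hφ l
  exact s.map_smul a x

theorem res_comp {R : Type v} [Ring R] (ψ : R →+* S) (φ : S →+* L) (χ : R →+* L)
    (h : ∀ r, χ r = φ (ψ r)) : Nonempty (Res ψ (Res φ M) ≃ₗ[R] Res χ M) :=
  ⟨{ toFun := fun x => x
     invFun := fun x => x
     map_add' := fun _ _ => rfl
     map_smul' := fun r x => by
       change φ (ψ r) • (show M from x) = χ r • (show M from x)
       rw [h]
     left_inv := fun _ => rfl
     right_inv := fun _ => rfl }⟩

end Pool.Agent.MP_f7db47_al.GS
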