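import Pool.Agent.MP_f7db47_al.GS.CD
import Pool.Agent.MP_f7db47_al.GS.Mono
import Pool.Agent.MP_f7db47_al.GS.Uni1
import Pool.Agent.MP_f7db47_al.GS.Uni2
import Pool.Agent.MP_f7db47_al.GZ.GF
import Pool.Agent.MP_f7db47_al.PT.ZAbq

/-!
Torsion-free virtually poly-`ℤ` groups and quasi-unipotent-by-cyclic linear groups.
-/

namespace Pool.Agent.MP_f7db47_al.GS

open Function

universe v

variable {R : Type v} [Ring R]

/-- Reduction to the extensions by `ℤ` of subgroups of the isolator of the commutator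
subgroup. -/
theorem qq_iso {G : Type} [Group G] (H : Subgroup G)
    (h : ∀ (L : Subgroup H) (ψ : L →* Multiplicative ℤ),
      (∀ x : L, ψ x = 1 → ∃ k : ℕ, 0 < k ∧ ((x : H) : G) ^ k ∈ ⁅H, H⁆) → QQ R L) : QQ R H := by
  refine PT.qq_abq' (Q := Abelianization H ⧸ CommGroup.torsion (Abelianization H))
    (fun q hq => by_contra fun e => isMulTorsionFree_iff_not_isOfFinOrder.1 inferInstance e hq)
    ((QuotientGroup.mk' _).comp Abelianization.of) fun L ψ hψ => h L ψ fun x hx => ?_
  have h1 : IsOfFinOrder (Abelianization.of (x : H)) := (QuotientGroup.eq_one_iff _).1 (hψ x hx)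
  obtain ⟨k, hk, h2⟩ := isOfFinOrder_iff_pow_eq_one.1 h1
  refine ⟨k, hk, ?_⟩
  rw [← H.map_subtype_commutator]
  refine ⟨(x : H) ^ k, ?_, rfl⟩
  rw [← Abelianization.ker_of]
  exact (map_pow _ _ _).trans h2

theorem qq_vp' (hR : RegularRing R) {U : Type} [Group U] (hU : PolyZ U) :
    ∀ (Γ : Type) [Group Γ], TF Γ → ∀ W : Subgroup Γ, W.FiniteIndex → ∀ j : W →* U,
      Injective j → QQ R Γ := by
  induction hU with
  | triv U hU => exact fun Γ _ hT W _ j hj => PT.qq_poly hR (PolyZ.triv _ (hT.triv W j hj))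
  | ext U h hk ih =>
    intro Γ _ hT W _ j hj
    have hV : VP Γ := ⟨W, inferInstance, polyZ_of_injective (PolyZ.ext U h hk) _ j hj⟩
    obtain ⟨K, _, _, n, f, hf⟩ := exists_mono W (h.comp j)
    refine GZ.qq_glnF f fun H hH => qq_iso H fun L ψ hψ => ?_
    let i : L →* Γ := H.subtype.comp L.subtype
    have hi : Injective i := H.subtype_injective.comp L.subtype_injective
    let i' : ψ.ker →* Γ := i.comp ψ.ker.subtype
    have hi' : Injective i' := hi.comp ψ.ker.subtype_injective
    refine qq_line_vp hR (hT.sub i hi) ψ ?_ fun M _ _ =>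
      hV.sub (i.comp M.subtype) (hi.comp M.subtype_injective)
    obtain ⟨j', hj'⟩ := exists_ker h W j hj i' hi' (W.normalCore.comap i')
      (fun s hs => W.normalCore_le hs) fun s hs => by
        obtain ⟨k, hk, h1⟩ := hψ s.1 s.2
        have h2 := hf _ (W.normalCore.pow_mem hs k) (hH _ h1)
        have h3 : (h (j ⟨i' s, W.normalCore_le hs⟩)) ^ k = 1 := by
          rw [← map_pow, ← map_pow]; exact h2
        exact (pow_eq_one_iff_left hk.ne').1 h3
    refine ih _ (hT.sub i' hi') _ ⟨?_⟩ j' hj'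
    rw [Subgroup.index_comap]
    exact Subgroup.FiniteIndex.index_ne_zero (H := W.normalCore.subgroupOf i'.range)

theorem qq_vp (hR : RegularRing R) {G : Type} [Group G] (hT : TF G) (hV : VP G) : QQ R G := by
  obtain ⟨U, _, hU⟩ := hV
  exact qq_vp' hR hU G hT U inferInstance (MonoidHom.id _) injective_id

theorem vp_of_quasi {G K : Type} [Group G] [Group.FG G] [Field K] [CharZero K] {n : ℕ}
    (f : G →* GL (Fin n) K) (hf : Injective f)
    (h : ∀ g, ∃ m, 0 < m ∧ IsNilpotent ((f g).val ^ m - 1)) : VP G := by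
  obtain ⟨U, J, c, _, h1, h2, h3⟩ := exists_unip ((Units.coeHom _).comp f) (finite_traces f h)
  exact ⟨U, inferInstance, polyZ_of_unip (((Units.coeHom _).comp f).comp U.subtype)
    ((Units.val_injective.comp hf).comp U.subtype_injective) J c (fun g => h1 g g.2) h2 h3⟩

theorem qq_quasi (hR : RegularRing R) {H K : Type} [Group H] [Field K] [CharZero K] {n : ℕ}
    (f : H →* GL (Fin n) K) (hf : Injective f) (hT : ∀ g : H, IsOfFinOrder g → g = 1)
    (φ : H →* Multiplicative ℤ)
    (h : ∀ g, φ g = 1 → ∃ m, 0 < m ∧ IsNilpotent ((f g).val ^ m - 1)) : QQ R H := by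
  have hV : ∀ (M : Type) [Group M] [Group.FG M] (i : M →* H), Injective i →
      (∀ x, φ (i x) = 1) → VP M := fun M _ _ i hi hM =>
    vp_of_quasi (f.comp i) (hf.comp hi) fun g => h _ (hM g)
  refine qq_line_vp hR hT φ (PT.qq_loc fun M hM => ?_) fun M hM hle => ?_
  · have := (Group.fg_iff_subgroup_fg M).2 hM
    have hi := φ.ker.subtype_injective.comp M.subtype_injective
    exact qq_vp hR (TF.sub hT (φ.ker.subtype.comp M.subtype) hi)
      (hV M (φ.ker.subtype.comp M.subtype) hi fun x => x.1.2)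
  · have := (Group.fg_iff_subgroup_fg M).2 hM
    exact hV M M.subtype M.subtype_injective fun x => hle x.2

end Pool.Agent.MP_f7db47_al.GS
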